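import Mathlib

/-!
# Galois orbits of special points with pairwise distinct CM fields are equidistributed

Let `X_1, …, X_n` be modular curves (with the cusps added), for instance all of them the `j`-line,
and let `x_k = (x_{k,1}, …, x_{k,n})` be a sequence of special points of `X_1 × … × X_n` such that
for each `k` the CM fields of `x_{k,1}, …, x_{k,n}` are pairwise different. We show: if each
coordinate takes each value only finitely often (a weak form of the hypothesis of the problem, which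
concerns all special subvarieties, for the subvarieties `{z_j = p}` only), then the Galois orbits of
the `x_k` over every number field `F` are equidistributed, with a power saving in the discriminants
for test functions that are products of nice functions.

What is used of complex multiplication is listed in the structure `CMSpace`: the absolute Galois
group of `K = Frac Λ` acts on the CM points with the order `Λ` through a surjective homomorphism
(the Artin map) to `Pic(Λ)`, which is equivariant for the action of the Galois group of `K / ℚ`, the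
nontrivial element acting on `Pic(Λ)` by inversion. The analytic input is `TwistedDuke`, the theorem
of Duke with class group characters (Duke; Michel, Harcos-Michel, Zhang, Michel-Venkatesh: subconvexity
of Rankin-Selberg `L`-functions), and `GenusBound`, the bound `O(|disc Λ|^ε)` for the number of genus
characters.

Proof. Let `N` be the Galois group over the compositum of `F` and the CM fields. A tuple of
characters of the `Pic(Λ_j)` whose product is trivial on `N` need not consist of characters of order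
two, and over a field `F ≠ ℚ` it need not even have `2`-power order. But conjugation by elements
which act differently on two of the CM fields shows that for `F = ℚ` all these tuples are annihilated
by `2^n` (`torsion`), and that in general their multiples by `2^n` are at most `[F : ℚ]` tuples
(`count`). So there are few of them, and each one contributes at most a product of small Fourier
coefficients to the average over an orbit.
-/

open MeasureTheory Filter Topology Finset

set_option autoImplicit false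

namespace Pool.Agent.Results.MP_ad7a55_nt.DistinctFields

/-- **Complex multiplication.** `X` is a space (a compactified modular curve, for instance the
compactified `j`-line) and `𝒢` the absolute Galois group of `ℚ`. For the `j`-line:
* `Order` is the set of the orders `Λ` in imaginary quadratic fields `K`, `disc` the absolute value of
  the discriminant, `s Λ` the quadratic character of the absolute Galois group attached to `K`
  (`s Λ g = 1` if and only if `g` is trivial on `K`), `Cl Λ = Pic(Λ)` (written additively);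
* `artin Λ g` is, for `g` trivial on `K`, the ideal class given by the Artin map
  `Gal(H_Λ / K) ≅ Pic(Λ)` of the ring class field (arbitrary for other `g`); it is a surjective
  homomorphism, and the conjugation by `τ` is the identity or the inversion of `Pic(Λ)`;
* `P Λ` is the finite set of the CM points with the order `Λ`; the Galois group and `Pic(Λ)` act
  on it, and `reciprocity` is the main theorem of complex multiplication;
* `pt` is the inclusion in the space of complex points.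
For `X_0(N)` the order of a CM point `E → E'` is `End(E) ∩ End(E')`. -/
structure CMSpace (𝒢 : Type) [Group 𝒢] (X : Type) where
  /-- the orders -/
  Order : Type
  /-- the absolute value of the discriminant -/
  disc : Order → ℕ
  disc_pos : ∀ D, 0 < disc D
  finite_disc : ∀ B : ℕ, {D | disc D ≤ B}.Finite
  /-- the quadratic character of the CM field -/
  s : Order → 𝒢 →* ℤˣ
  /-- the ideal class group of the order -/
  Cl : Order → Type
  grp : ∀ D, AddCommGroup (Cl D)
  fin : ∀ D, Fintype (Cl D)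
  /-- the Artin map -/
  artin : ∀ D, 𝒢 → Cl D
  artin_mul : ∀ D g h, s D g = 1 → s D h = 1 → artin D (g * h) = artin D g + artin D h
  artin_surj : ∀ D c, ∃ g, s D g = 1 ∧ artin D g = c
  artin_conj : ∀ D τ g, s D g = 1 → artin D (τ * g * τ⁻¹) = ((s D τ : ℤˣ) : ℤ) • artin D g
  /-- the CM points with this order -/
  P : Order → Type
  finP : ∀ D, Finite (P D)
  act : ∀ D, MulAction 𝒢 (P D)
  clact : ∀ D, AddAction (Cl D) (P D)
  reciprocity : ∀ D g, s D g = 1 → ∀ x : P D, g • x = artin D g +ᵥ x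
  /-- the points of `X` -/
  pt : ∀ D, P D → X

attribute [instance] CMSpace.grp CMSpace.fin CMSpace.finP CMSpace.act CMSpace.clact

open Classical in
/-- **Duke's theorem with characters and a power saving.** For `φ` in the set `𝒯` of test functions
(on the `j`-line: smooth and constant near the cusp), every CM point `x` with the order `Λ` and every
character `χ` of `Pic(Λ)`, the mean value of `φ(c · x) χ(c)`, `c ∈ Pic(Λ)`, is `∫ φ dm` (if `χ = 1`)
or `0` (if `χ ≠ 1`), up to `O_φ(|disc Λ|^(-δ))`. -/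
def TwistedDuke {𝒢 : Type} [Group 𝒢] {X : Type} [TopologicalSpace X] [MeasurableSpace X]
    (S : CMSpace 𝒢 X) (m : Measure X) (𝒯 : Set C(X, ℝ)) : Prop :=
  ∃ δ : ℝ, 0 < δ ∧ ∀ φ ∈ 𝒯, ∃ C : ℝ, ∀ (D : S.Order) (x : S.P D) (χ : AddChar (S.Cl D) ℂ),
    ‖(∑ c, (φ (S.pt D (c +ᵥ x)) : ℂ) * χ c) / Fintype.card (S.Cl D) -
      (if χ = 0 then ((∫ t, φ t ∂m : ℝ) : ℂ) else 0)‖ ≤ C * (S.disc D : ℝ) ^ (-δ)

/-- **Genus theory:** the number of characters of `Pic(Λ)` with `χ² = 1` is `O_ε(|disc Λ|^ε)`. -/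
def GenusBound {𝒢 : Type} [Group 𝒢] {X : Type} (S : CMSpace 𝒢 X) : Prop :=
  ∀ ε : ℝ, 0 < ε → ∃ C : ℝ, ∀ D : S.Order,
    (Nat.card {χ : AddChar (S.Cl D) ℂ // χ + χ = 0} : ℝ) ≤ C * (S.disc D : ℝ) ^ ε

/-- The average of a function over the orbit of `x` under `ℱ` (for us the absolute Galois group of a
number field `F`), that is its integral for the measure `μ_x` of the problem. -/
noncomputable def orbitAverage {𝒢 P : Type} [Group 𝒢] [MulAction 𝒢 P] (ℱ : Subgroup 𝒢) (x : P)
    (Ψ : P → ℝ) : ℝ :=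
  (∑ᶠ y ∈ MulAction.orbit ℱ x, Ψ y) / Nat.card (MulAction.orbit ℱ x)

section Torsion

variable {𝒢 : Type} [Group 𝒢] {n : ℕ} {G : Fin n → Type} [∀ j, AddCommGroup (G j)]

/-- The tuples of characters whose product is trivial on `U`. -/
def Perp (a : ∀ j, 𝒢 → G j) (U : Subgroup 𝒢) (χ : ∀ j, AddChar (G j) ℂ) : Prop :=
  ∀ g ∈ U, ∏ j, χ j (a j g) = 1

/-- The elements which act trivially on all the quadratic fields. -/
def NQ (s : Fin n → 𝒢 →* ℤˣ) : Subgroup 𝒢 := ⨅ j, (s j).ker

theorem mem_NQ {s : Fin n → 𝒢 →* ℤˣ} {g : 𝒢} : g ∈ NQ s ↔ ∀ j, s j g = 1 := by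
  simp [NQ, Subgroup.mem_iInf, MonoidHom.mem_ker]

theorem torsion {s : Fin n → 𝒢 →* ℤˣ} {a : ∀ j, 𝒢 → G j}
    (hmul : ∀ j g h, s j g = 1 → s j h = 1 → a j (g * h) = a j g + a j h)
    (hsurj : ∀ j c, ∃ g, s j g = 1 ∧ a j g = c)
    (hconj : ∀ j τ g, s j g = 1 → a j (τ * g * τ⁻¹) = ((s j τ : ℤˣ) : ℤ) • a j g)
    (hdist : ∀ i j, i ≠ j → s i ≠ s j) {χ : ∀ j, AddChar (G j) ℂ} (h : Perp a (NQ s) χ)
    (b : Fin n) : (2 ^ n : ℕ) • χ b = 0 := by
  have key : ∀ T : Finset (Fin n), b ∉ T → ∃ θ : ∀ j, AddChar (G j) ℂ, Perp a (NQ s) θ ∧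
      θ b = (2 ^ T.card : ℕ) • χ b ∧ ∀ i ∈ T, θ i = 0 := by
    intro T
    induction T using Finset.induction_on with
    | empty => intro _; exact ⟨χ, h, by simp, by simp⟩
    | insert i T hi ih =>
      intro hb
      have hbi : i ≠ b := by
        rintro rfl
        exact hb (mem_insert_self _ _)
      obtain ⟨θ, h1, h2, h3⟩ := ih (fun hbT => hb (mem_insert_of_mem hbT))
      obtain ⟨τ, hτ⟩ : ∃ τ, s i τ ≠ s b τ := DFunLike.ne_iff.1 (hdist i b hbi)
      refine ⟨fun j => θ j + (((s j τ : ℤˣ) : ℤ) * ((s b τ : ℤˣ) : ℤ)) • θ j, ?_, ?_, ?_⟩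
      · intro g hg
        have hg' : τ * g * τ⁻¹ ∈ NQ s := by
          rw [mem_NQ] at hg ⊢
          intro j
          simp [hg j]
        have e1 := h1 g hg
        have e2 := h1 _ hg'
        have e3 : ∏ j, (θ j (a j g)) ^ ((s j τ : ℤˣ) : ℤ) = 1 := by
          rw [← e2]
          refine prod_congr rfl fun j _ => ?_
          rw [hconj j τ g (mem_NQ.1 hg j), AddChar.map_zsmul_eq_zpow]
        have e4 : ∀ j, (θ j + (((s j τ : ℤˣ) : ℤ) * ((s b τ : ℤˣ) : ℤ)) • θ j) (a j g) =
            θ j (a j g) * ((θ j (a j g)) ^ ((s j τ : ℤˣ) : ℤ)) ^ ((s b τ : ℤˣ) : ℤ) := by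
          intro j
          rw [AddChar.add_apply, AddChar.zsmul_apply, zpow_mul]
        simp only [e4]
        rw [prod_mul_distrib, e1, one_mul, prod_zpow, e3, one_zpow]
      · have e : (((s b τ : ℤˣ) : ℤ) * ((s b τ : ℤˣ) : ℤ)) = 1 := by
          rcases Int.units_eq_one_or (s b τ) with h | h <;> simp [h]
        simp only [e, one_smul]
        rw [h2, card_insert_of_notMem hi, pow_succ, mul_comm, mul_smul, two_nsmul]
      · intro j hj
        rcases mem_insert.1 hj with rfl | hj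
        · have e : (((s j τ : ℤˣ) : ℤ) * ((s b τ : ℤˣ) : ℤ)) = -1 := by
            rcases Int.units_eq_one_or (s b τ) with h | h <;>
            rcases Int.units_eq_one_or (s j τ) with h' | h' <;> simp_all
          simp only [e, neg_smul, one_smul]
          exact add_neg_cancel _
        · simp only [h3 j hj]
          ext x
          rw [AddChar.add_apply, AddChar.zsmul_apply]
          simp
  obtain ⟨θ, h1, h2, h3⟩ := key (univ.erase b) (by simp)
  have hcard : (univ.erase b : Finset (Fin n)).card + 1 = n := by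
    rw [card_erase_of_mem (mem_univ _), card_univ, Fintype.card_fin]
    have := b.pos
    omega
  ext c
  obtain ⟨g, hg, rfl⟩ := hsurj b c
  have hgg : g * g ∈ NQ s := by
    rw [mem_NQ]
    intro j
    rw [map_mul]
    exact Int.units_mul_self _
  have e1 := h1 _ hgg
  rw [prod_eq_single b] at e1
  · rw [hmul b g g hg hg, h2, AddChar.nsmul_apply, AddChar.map_add_eq_mul, ← pow_two, ← pow_mul,
      ← pow_succ', hcard] at e1
    rw [AddChar.nsmul_apply, e1]
    rfl
  · intro j _ hj
    rw [h3 j (mem_erase.2 ⟨hj, mem_univ _⟩)]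
    rfl
  · intro hb
    exact absurd (mem_univ _) hb

/-- The number of classes of characters trivial on `N`. -/
theorem count {s : Fin n → 𝒢 →* ℤˣ} {a : ∀ j, 𝒢 → G j}
    (hmul : ∀ j g h, s j g = 1 → s j h = 1 → a j (g * h) = a j g + a j h)
    (htor : ∀ χ : ∀ j, AddChar (G j) ℂ, Perp a (NQ s) χ → ∀ b, (2 ^ n : ℕ) • χ b = 0)
    (ℱ : Subgroup 𝒢) [ℱ.FiniteIndex]
    [DecidableEq (∀ j, AddChar (G j) ℂ)]
    (W : Finset (∀ j, AddChar (G j) ℂ)) (hW : ∀ χ ∈ W, Perp a (ℱ ⊓ NQ s) χ) :
    (W.image (fun χ j => (2 ^ n : ℕ) • χ j)).card ≤ ℱ.index := by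
  classical
  set Γ := NQ s with hΓ
  set N : Subgroup Γ := ℱ.subgroupOf Γ with hN
  have hrel : ℱ.relIndex Γ ≤ ℱ.index := by
    have := Subgroup.relIndex_le_of_le_right (H := ℱ) (K := Γ) (L := ⊤) le_top
      (by rw [Subgroup.relIndex_top_right]; exact Subgroup.FiniteIndex.index_ne_zero)
    rwa [Subgroup.relIndex_top_right] at this
  have hN0 : N.index = ℱ.relIndex Γ := rfl
  have : N.FiniteIndex := inferInstance
  have : Fintype (Γ ⧸ N) := N.fintypeQuotientOfFiniteIndex
  -- the homomorphism attached to a tuple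
  have hone : ∀ j, a j 1 = 0 := by
    intro j
    have := hmul j 1 1 (map_one _) (map_one _)
    rw [mul_one] at this
    exact left_eq_add.1 this
  let F : (∀ j, AddChar (G j) ℂ) → (Γ →* ℂ) := fun χ =>
    { toFun := fun g => ∏ j, χ j (a j g)
      map_one' := by simp [hone]
      map_mul' := by
        intro g h
        rw [← prod_mul_distrib]
        refine prod_congr rfl fun j _ => ?_
        rw [Subgroup.coe_mul, hmul j _ _ (mem_NQ.1 g.2 j) (mem_NQ.1 h.2 j),
          AddChar.map_add_eq_mul] }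
  have hF : ∀ χ χ', F χ = F χ' → ∀ j, (2 ^ n : ℕ) • χ j = (2 ^ n : ℕ) • χ' j := by
    intro χ χ' h j
    have hp : Perp a (NQ s) (fun j => χ j - χ' j) := by
      intro g hg
      have h' : ∏ j, χ j (a j g) = ∏ j, χ' j (a j g) := DFunLike.congr_fun h ⟨g, hg⟩
      simp only [AddChar.sub_apply']
      rw [prod_div_distrib, h', div_self]
      rw [prod_ne_zero_iff]
      intro j _
      exact (AddChar.val_isUnit _ _).ne_zero
    have := htor _ hp j
    rw [smul_sub, sub_eq_zero] at this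
    exact this
  set I := W.image (fun χ j => (2 ^ n : ℕ) • χ j) with hI
  have hch : ∀ w : I, ∃ χ ∈ W, (fun j => (2 ^ n : ℕ) • χ j) = w.1 := fun w => mem_image.1 w.2
  choose c hcW hc using hch
  have hinj : Function.Injective (fun w : I => F (c w)) := by
    intro w w' h
    apply Subtype.ext
    rw [← hc w, ← hc w']
    funext j
    exact hF _ _ h j
  have hli : LinearIndependent ℂ (fun w : I => (F (c w) : Γ → ℂ)) :=
    (linearIndependent_monoidHom Γ ℂ).comp _ hinj
  -- the functions on the quotient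
  have hq : ∀ w : I, ∀ g h : Γ, (QuotientGroup.leftRel N) g h → F (c w) g = F (c w) h := by
    intro w g h hgh
    rw [QuotientGroup.leftRel_apply] at hgh
    have h1 : F (c w) (g⁻¹ * h) = 1 := by
      have := hW _ (hcW w) ((g⁻¹ * h : Γ) : 𝒢) ⟨Subgroup.mem_subgroupOf.1 hgh, (g⁻¹ * h).2⟩
      exact this
    have h2 : h = g * (g⁻¹ * h) := by group
    conv_rhs => rw [h2]
    rw [map_mul, h1, mul_one]
  let q : I → (Γ ⧸ N → ℂ) := fun w => Quotient.lift (F (c w)) (hq w)
  have hli' : LinearIndependent ℂ q := by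
    apply LinearIndependent.of_comp (LinearMap.funLeft ℂ ℂ (QuotientGroup.mk : Γ → Γ ⧸ N))
    exact hli
  have := hli'.fintype_card_le_finrank
  rw [Module.finrank_fintype_fun_eq_card, Fintype.card_coe] at this
  calc I.card ≤ Fintype.card (Γ ⧸ N) := this
    _ = N.index := by rw [Subgroup.index_eq_card, Nat.card_eq_fintype_card]
    _ ≤ ℱ.index := by rw [hN0]; exact hrel

end Torsion

section Fourier

variable {n : ℕ} {G : Fin n → Type} [∀ j, AddCommGroup (G j)] [∀ j, Fintype (G j)]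

/-- Fourier coefficients. -/
noncomputable def hat {A : Type} [AddCommGroup A] [Fintype A] (ψ : A → ℂ) (χ : AddChar A ℂ) : ℂ :=
  (∑ c, ψ c * χ c) / Fintype.card A

theorem inversion {A : Type} [AddCommGroup A] [Fintype A] (ψ : A → ℂ) (g : A) :
    ψ g = ∑ χ : AddChar A ℂ, hat ψ χ * χ (-g) := by
  classical
  have h0 : (Fintype.card A : ℂ) ≠ 0 := by exact_mod_cast Fintype.card_ne_zero
  calc ψ g = (∑ c, ψ c * (if c - g = 0 then (Fintype.card A : ℂ) else 0)) / Fintype.card A := by
        rw [sum_eq_single g]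
        · simp [h0]
        · intro c _ hc
          rw [if_neg (sub_ne_zero.2 hc), mul_zero]
        · intro h
          exact absurd (mem_univ _) h
    _ = (∑ c, ψ c * ∑ χ : AddChar A ℂ, χ (c - g)) / Fintype.card A := by
        simp only [AddChar.sum_apply_eq_ite]
    _ = ∑ χ : AddChar A ℂ, hat ψ χ * χ (-g) := by
        simp only [hat, mul_sum, sum_div, sum_mul]
        rw [sum_comm]
        refine sum_congr rfl fun χ _ => sum_congr rfl fun c _ => ?_
        rw [sub_eq_add_neg, AddChar.map_add_eq_mul]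
        ring

omit [∀ j, Fintype (G j)] in
theorem charsum (H : AddSubgroup (∀ j, G j)) [Fintype H] (χ : ∀ j, AddChar (G j) ℂ)
    [Decidable (∀ h ∈ H, ∏ j, χ j (h j) = 1)] :
    (∑ h : H, ∏ j, χ j (-((h : ∀ j, G j) j))) / Fintype.card H =
      if (∀ h ∈ H, ∏ j, χ j (h j) = 1) then 1 else 0 := by
  classical
  let e : AddChar H ℂ :=
    { toFun := fun h => ∏ j, χ j (-((h : ∀ j, G j) j))
      map_zero_eq_one' := by simp
      map_add_eq_mul' := by
        intro g h
        rw [← prod_mul_distrib]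
        refine prod_congr rfl fun j _ => ?_
        rw [← AddChar.map_add_eq_mul]
        congr 1
        rw [AddSubgroup.coe_add, Pi.add_apply]
        abel }
  have h0 : (Fintype.card H : ℂ) ≠ 0 := by exact_mod_cast Fintype.card_ne_zero
  have he : e = 0 ↔ ∀ h ∈ H, ∏ j, χ j (h j) = 1 := by
    rw [AddChar.eq_zero_iff]
    constructor
    · intro h g hg
      have := h ⟨-g, H.neg_mem hg⟩
      simpa [e] using this
    · intro h g
      have := h (-(g : ∀ j, G j)) (H.neg_mem g.2)
      simpa [e] using this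
  have := AddChar.sum_eq_ite e
  have h2 : ∑ h : H, ∏ j, χ j (-((h : ∀ j, G j) j)) = ∑ h : H, e h := rfl
  rw [h2, this]
  by_cases h : ∀ h ∈ H, ∏ j, χ j (h j) = 1
  · rw [if_pos h, if_pos (he.2 h), div_self h0]
  · rw [if_neg h, if_neg (fun h' => h (he.1 h')), zero_div]

theorem expand (H : AddSubgroup (∀ j, G j)) [Fintype H] (ψ : ∀ j, G j → ℂ)
    [DecidablePred fun χ : ∀ j, AddChar (G j) ℂ => ∀ h ∈ H, ∏ j, χ j (h j) = 1] :
    (∑ h : H, ∏ j, ψ j ((h : ∀ j, G j) j)) / Fintype.card H =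
      ∑ χ ∈ (univ : Finset (∀ j, AddChar (G j) ℂ)).filter
        (fun χ => ∀ h ∈ H, ∏ j, χ j (h j) = 1), ∏ j, hat (ψ j) (χ j) := by
  classical
  calc (∑ h : H, ∏ j, ψ j ((h : ∀ j, G j) j)) / Fintype.card H
      = (∑ h : H, ∏ j, ∑ χ : AddChar (G j) ℂ, hat (ψ j) χ * χ (-((h : ∀ j, G j) j))) /
          Fintype.card H := by
        congr 1
        refine sum_congr rfl fun h _ => prod_congr rfl fun j _ => ?_
        exact inversion _ _
    _ = (∑ h : H, ∑ χ : ∀ j, AddChar (G j) ℂ,
          ∏ j, hat (ψ j) (χ j) * χ j (-((h : ∀ j, G j) j))) / Fintype.card H := by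
        congr 1
        refine sum_congr rfl fun h _ => ?_
        rw [prod_univ_sum, Fintype.piFinset_univ]
    _ = ∑ χ : ∀ j, AddChar (G j) ℂ, (∏ j, hat (ψ j) (χ j)) *
          ((∑ h : H, ∏ j, χ j (-((h : ∀ j, G j) j))) / Fintype.card H) := by
        rw [sum_comm, sum_div]
        refine sum_congr rfl fun χ _ => ?_
        simp only [prod_mul_distrib]
        rw [← mul_sum, mul_div_assoc]
    _ = _ := by
        simp only [charsum]
        rw [sum_filter]
        refine sum_congr rfl fun χ _ => ?_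
        split_ifs <;> simp

end Fourier

section Counting

/-- Fibres of multiplication by `2 ^ k`. -/
theorem card_fiber {A : Type} [AddCommGroup A] [Fintype A] [DecidableEq A] (k : ℕ) (w : A) :
    ((univ : Finset A).filter (fun c => (2 ^ k : ℕ) • c = w)).card ≤
      ((univ : Finset A).filter (fun c => c + c = 0)).card ^ k := by
  have h2 : ∀ w : A, ((univ : Finset A).filter (fun c => c + c = w)).card ≤
      ((univ : Finset A).filter (fun c => c + c = 0)).card := by
    intro w
    rcases ((univ : Finset A).filter (fun c => c + c = w)).eq_empty_or_nonempty with h | ⟨d, hd⟩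
    · rw [h]; simp
    · rw [mem_filter] at hd
      apply card_le_card_of_injOn (fun c => c - d)
      · intro c hc
        rw [mem_coe, mem_filter] at hc ⊢
        refine ⟨mem_univ _, ?_⟩
        have : c - d + (c - d) = (c + c) - (d + d) := by abel
        rw [this, hc.2, hd.2, sub_self]
      · intro c _ c' _ h
        exact sub_left_injective h
  induction k generalizing w with
  | zero =>
    simp only [pow_zero, one_smul]
    rw [filter_eq' univ w]
    simp
  | succ k ih =>
    set S := (univ : Finset A).filter (fun c => (2 ^ (k + 1) : ℕ) • c = w) with hS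
    have h1 := card_le_mul_card_image (f := fun c : A => (2 ^ k : ℕ) • c) S
      (((univ : Finset A).filter (fun c => c + c = 0)).card ^ k) (by
        intro d _
        refine le_trans (card_le_card ?_) (ih d)
        intro c hc
        rw [mem_filter] at hc ⊢
        exact ⟨mem_univ _, hc.2⟩)
    have h3 : (S.image (fun c : A => (2 ^ k : ℕ) • c)).card ≤
        ((univ : Finset A).filter (fun c => c + c = 0)).card := by
      refine le_trans (card_le_card ?_) (h2 w)
      intro d hd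
      rw [mem_image] at hd
      obtain ⟨c, hc, rfl⟩ := hd
      rw [hS, mem_filter] at hc
      rw [mem_filter]
      refine ⟨mem_univ _, ?_⟩
      rw [← add_smul, ← two_mul, ← pow_succ']
      exact hc.2
    calc S.card ≤ _ := h1
      _ ≤ ((univ : Finset A).filter (fun c => c + c = 0)).card ^ k *
          ((univ : Finset A).filter (fun c => c + c = 0)).card := Nat.mul_le_mul_left _ h3
      _ = _ := (pow_succ _ _).symm

/-- The sum over the tuples different from `z` in a product of sets. -/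
theorem sum_ne_le {n : ℕ} {A : Fin n → Type} [∀ j, DecidableEq (A j)] (t : ∀ j, Finset (A j))
    (z : ∀ j, A j) (u : ∀ j, A j → ℝ) (hu : ∀ j c, 0 ≤ u j c) (M : ℝ) (hM : 1 ≤ M)
    (η : Fin n → ℝ) (h1 : ∀ j, ∑ c ∈ t j, u j c ≤ M)
    (h2 : ∀ j, ∑ c ∈ (t j).filter (fun c => c ≠ z j), u j c ≤ η j) :
    ∑ χ ∈ (Fintype.piFinset t).filter (fun χ => χ ≠ z), ∏ j, u j (χ j) ≤
      (∑ j, η j) * M ^ n := by
  classical
  let v : ∀ (_ : Fin n) (i : Fin n), A i → ℝ := fun j i c => if i = j ∧ c = z i then 0 else u i c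
  have hv0 : ∀ j i c, 0 ≤ v j i c := by
    intro j i c
    simp only [v]
    split_ifs
    · exact le_rfl
    · exact hu _ _
  have hvu : ∀ j i c, v j i c ≤ u i c := by
    intro j i c
    simp only [v]
    split_ifs
    · exact hu _ _
    · exact le_rfl
  have hη : ∀ j, 0 ≤ η j := fun j => le_trans (sum_nonneg fun c _ => hu _ _) (h2 j)
  have step1 : ∀ χ : ∀ j, A j, χ ≠ z → ∏ j, u j (χ j) ≤ ∑ j, ∏ i, v j i (χ i) := by
    intro χ hχ
    obtain ⟨j, hj⟩ : ∃ j, χ j ≠ z j := Function.ne_iff.1 hχ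
    have e : ∏ i, v j i (χ i) = ∏ i, u i (χ i) := by
      refine prod_congr rfl fun i _ => ?_
      simp only [v]
      rw [if_neg]
      rintro ⟨rfl, h⟩
      exact hj h
    rw [← e]
    exact single_le_sum (f := fun j => ∏ i, v j i (χ i))
      (fun j _ => prod_nonneg fun i _ => hv0 _ _ _) (mem_univ j)
  calc ∑ χ ∈ (Fintype.piFinset t).filter (fun χ => χ ≠ z), ∏ j, u j (χ j)
      ≤ ∑ χ ∈ (Fintype.piFinset t).filter (fun χ => χ ≠ z), ∑ j, ∏ i, v j i (χ i) :=
        sum_le_sum fun χ hχ => step1 χ (mem_filter.1 hχ).2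
    _ ≤ ∑ χ ∈ Fintype.piFinset t, ∑ j, ∏ i, v j i (χ i) :=
        sum_le_sum_of_subset_of_nonneg (filter_subset _ _)
          (fun χ _ _ => sum_nonneg fun j _ => prod_nonneg fun i _ => hv0 _ _ _)
    _ = ∑ j, ∏ i, ∑ c ∈ t i, v j i c := by
        rw [sum_comm]
        refine sum_congr rfl fun j _ => ?_
        rw [prod_univ_sum]
    _ ≤ ∑ j, η j * M ^ n := by
        refine sum_le_sum fun j _ => ?_
        rw [← mul_prod_erase univ _ (mem_univ j)]
        have e1 : ∑ c ∈ t j, v j j c ≤ η j := by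
          refine le_trans (le_of_eq ?_) (h2 j)
          rw [sum_filter]
          refine sum_congr rfl fun c _ => ?_
          simp only [v, true_and]
          by_cases hc : c = z j
          · simp [hc]
          · simp [hc]
        have e2 : ∏ i ∈ univ.erase j, ∑ c ∈ t i, v j i c ≤ M ^ n := by
          calc ∏ i ∈ univ.erase j, ∑ c ∈ t i, v j i c ≤ ∏ _i ∈ univ.erase j, M := by
                refine prod_le_prod (fun i _ => sum_nonneg fun c _ => hv0 _ _ _) fun i _ => ?_
                exact le_trans (sum_le_sum fun c _ => hvu _ _ _) (h1 i)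
            _ = M ^ (univ.erase j : Finset (Fin n)).card := by rw [prod_const]
            _ ≤ M ^ n := by
                refine pow_le_pow_right₀ hM ?_
                calc (univ.erase j : Finset (Fin n)).card ≤ (univ : Finset (Fin n)).card :=
                      card_erase_le
                  _ = n := by simp
        exact mul_le_mul e1 e2 (prod_nonneg fun i _ => sum_nonneg fun c _ => hv0 _ _ _) (hη j)
    _ = (∑ j, η j) * M ^ n := by rw [sum_mul]

end Counting

section Estimate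

theorem prod_diff {n : ℕ} (x y : Fin n → ℂ) (M : ℝ) (hM : 1 ≤ M) (hx : ∀ j, ‖x j‖ ≤ M)
    (hy : ∀ j, ‖y j‖ ≤ M) : ‖∏ j, x j - ∏ j, y j‖ ≤ (∑ j, ‖x j - y j‖) * M ^ n := by
  have key : ∀ T : Finset (Fin n), ‖∏ j ∈ T, x j - ∏ j ∈ T, y j‖ ≤
      (∑ j ∈ T, ‖x j - y j‖) * M ^ T.card := by
    intro T
    induction T using Finset.induction_on with
    | empty => simp
    | insert i T hi ih =>
      rw [prod_insert hi, prod_insert hi, sum_insert hi, card_insert_of_notMem hi]
      have e : x i * ∏ j ∈ T, x j - y i * ∏ j ∈ T, y j =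
          (x i - y i) * ∏ j ∈ T, x j + y i * (∏ j ∈ T, x j - ∏ j ∈ T, y j) := by ring
      rw [e]
      have hp : ‖∏ j ∈ T, x j‖ ≤ M ^ T.card := by
        rw [norm_prod]
        calc ∏ j ∈ T, ‖x j‖ ≤ ∏ _j ∈ T, M := prod_le_prod (fun _ _ => norm_nonneg _) fun j _ => hx j
          _ = M ^ T.card := by rw [prod_const]
      have hM0 : 0 ≤ M := by linarith
      have hMp : M ^ T.card ≤ M ^ (T.card + 1) := pow_le_pow_right₀ hM (Nat.le_succ _)
      calc ‖(x i - y i) * ∏ j ∈ T, x j + y i * (∏ j ∈ T, x j - ∏ j ∈ T, y j)‖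
          ≤ ‖x i - y i‖ * ‖∏ j ∈ T, x j‖ + ‖y i‖ * ‖∏ j ∈ T, x j - ∏ j ∈ T, y j‖ := by
            refine le_trans (norm_add_le _ _) ?_
            rw [norm_mul, norm_mul]
        _ ≤ ‖x i - y i‖ * M ^ (T.card + 1) + M * ((∑ j ∈ T, ‖x j - y j‖) * M ^ T.card) := by
            refine add_le_add ?_ ?_
            · exact mul_le_mul_of_nonneg_left (hp.trans hMp) (norm_nonneg _)
            · exact mul_le_mul (hy i) ih (norm_nonneg _) hM0
        _ = (‖x i - y i‖ + ∑ j ∈ T, ‖x j - y j‖) * M ^ (T.card + 1) := by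
            rw [pow_succ]; ring
  have := key univ
  simpa using this

variable {𝒢 : Type} [Group 𝒢] {n : ℕ} {G : Fin n → Type} [∀ j, AddCommGroup (G j)]

/-- The image of a group acting trivially on the quadratic fields. -/
def image {s : Fin n → 𝒢 →* ℤˣ} {a : ∀ j, 𝒢 → G j}
    (hmul : ∀ j g h, s j g = 1 → s j h = 1 → a j (g * h) = a j g + a j h)
    (ℱ : Subgroup 𝒢) : AddSubgroup (∀ j, G j) where
  carrier := {h | ∃ g ∈ ℱ ⊓ NQ s, ∀ j, a j g = h j}
  zero_mem' := by
    refine ⟨1, one_mem _, fun j => ?_⟩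
    have := hmul j 1 1 (map_one _) (map_one _)
    rw [mul_one] at this
    exact left_eq_add.1 this
  add_mem' := by
    rintro x y ⟨g, hg, hgx⟩ ⟨h, hh, hhy⟩
    refine ⟨g * h, mul_mem hg hh, fun j => ?_⟩
    rw [hmul j g h (mem_NQ.1 hg.2 j) (mem_NQ.1 hh.2 j), hgx, hhy]
    rfl
  neg_mem' := by
    rintro x ⟨g, hg, hgx⟩
    refine ⟨g⁻¹, inv_mem hg, fun j => ?_⟩
    have h1 := hmul j g g⁻¹ (mem_NQ.1 hg.2 j) (by rw [map_inv, mem_NQ.1 hg.2 j, inv_one])
    have h0 := hmul j 1 1 (map_one _) (map_one _)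
    rw [mul_one] at h0
    rw [mul_inv_cancel, left_eq_add.1 h0, hgx] at h1
    exact (neg_eq_of_add_eq_zero_right h1.symm).symm

theorem estimate [∀ j, Fintype (G j)] {s : Fin n → 𝒢 →* ℤˣ} {a : ∀ j, 𝒢 → G j}
    (hmul : ∀ j g h, s j g = 1 → s j h = 1 → a j (g * h) = a j g + a j h)
    (hsurj : ∀ j c, ∃ g, s j g = 1 ∧ a j g = c)
    (hconj : ∀ j τ g, s j g = 1 → a j (τ * g * τ⁻¹) = ((s j τ : ℤˣ) : ℤ) • a j g)
    (hdist : ∀ i j, i ≠ j → s i ≠ s j)
    (ℱ : Subgroup 𝒢) [ℱ.FiniteIndex] [Fintype (image hmul ℱ)]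
    [∀ j, DecidableEq (AddChar (G j) ℂ)]
    (ψ : ∀ j, G j → ℂ) (c : Fin n → ℂ) (ε T : Fin n → ℝ) (M : ℝ) (hM : 1 ≤ M)
    (hε : ∀ j, 0 ≤ ε j)
    (h0 : ∀ j, ‖hat (ψ j) 0 - c j‖ ≤ ε j)
    (h1 : ∀ j (χ : AddChar (G j) ℂ), χ ≠ 0 → ‖hat (ψ j) χ‖ ≤ ε j)
    (hT : ∀ j, (((univ : Finset (AddChar (G j) ℂ)).filter (fun χ => χ + χ = 0)).card : ℝ) ^ n ≤ T j)
    (hT1 : ∀ j, 1 ≤ T j)
    (hcM : ∀ j, ‖c j‖ + ε j + T j * ε j ≤ M) :
    ‖(∑ h : image hmul ℱ, ∏ j, ψ j ((h : ∀ j, G j) j)) / Fintype.card (image hmul ℱ) -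
      ∏ j, c j‖ ≤ (ℱ.index + 1) * (∑ j, T j * ε j) * M ^ n := by
  classical
  set W := (univ : Finset (∀ j, AddChar (G j) ℂ)).filter
        (fun χ => ∀ h ∈ image hmul ℱ, ∏ j, χ j (h j) = 1) with hW
  have hWP : ∀ χ ∈ W, Perp a (ℱ ⊓ NQ s) χ := by
    intro χ hχ g hg
    rw [hW, mem_filter] at hχ
    exact hχ.2 (fun j => a j g) ⟨g, hg, fun _ => rfl⟩
  have hcount := count hmul (fun χ hχ b => torsion hmul hsurj hconj hdist hχ b) ℱ W hWP
  have h0W : (0 : ∀ j, AddChar (G j) ℂ) ∈ W := by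
    rw [hW, mem_filter]
    refine ⟨mem_univ _, fun h _ => ?_⟩
    simp
  rw [expand (image hmul ℱ) ψ, ← hW, ← add_sum_erase W _ h0W]
  -- the trivial character
  have e0 : ‖∏ j, hat (ψ j) ((0 : ∀ j, AddChar (G j) ℂ) j) - ∏ j, c j‖ ≤
      (∑ j, T j * ε j) * M ^ n := by
    refine le_trans (prod_diff _ _ M hM (fun j => ?_) (fun j => ?_)) ?_
    · have := h0 j
      have h3 : ‖hat (ψ j) 0‖ ≤ ‖hat (ψ j) 0 - c j‖ + ‖c j‖ := norm_le_norm_sub_add _ _
      have h4 := hcM j
      have h5 : 0 ≤ T j * ε j := mul_nonneg (by linarith [hT1 j]) (hε j)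
      calc ‖hat (ψ j) ((0 : ∀ j, AddChar (G j) ℂ) j)‖ = ‖hat (ψ j) 0‖ := rfl
        _ ≤ M := by linarith
    · have h4 := hcM j
      have h5 : 0 ≤ T j * ε j := mul_nonneg (by linarith [hT1 j]) (hε j)
      linarith [hε j]
    · refine mul_le_mul_of_nonneg_right (sum_le_sum fun j _ => ?_) (by positivity)
      refine le_trans (h0 j) ?_
      exact le_mul_of_one_le_left (hε j) (hT1 j)
  -- the other characters
  have e1 : ‖∑ χ ∈ W.erase 0, ∏ j, hat (ψ j) (χ j)‖ ≤
      ℱ.index * ((∑ j, T j * ε j) * M ^ n) := by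
    calc ‖∑ χ ∈ W.erase 0, ∏ j, hat (ψ j) (χ j)‖
        ≤ ∑ χ ∈ W.erase 0, ∏ j, ‖hat (ψ j) (χ j)‖ := by
          refine le_trans (norm_sum_le _ _) (sum_le_sum fun χ _ => ?_)
          rw [norm_prod]
      _ = ∑ w ∈ W.image (fun χ j => (2 ^ n : ℕ) • χ j),
            ∑ χ ∈ (W.erase 0).filter (fun χ => (fun j => (2 ^ n : ℕ) • χ j) = w),
              ∏ j, ‖hat (ψ j) (χ j)‖ := by
          rw [sum_fiberwise_of_maps_to]
          intro χ hχ
          exact mem_image_of_mem _ (mem_of_mem_erase hχ)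
      _ ≤ ∑ w ∈ W.image (fun χ j => (2 ^ n : ℕ) • χ j), (∑ j, T j * ε j) * M ^ n := by
          refine sum_le_sum fun w _ => ?_
          have hcard : ∀ j, (((univ : Finset (AddChar (G j) ℂ)).filter
              (fun χ => (2 ^ n : ℕ) • χ = w j)).card : ℝ) ≤ T j := by
            intro j
            refine le_trans ?_ (hT j)
            have := card_fiber (A := AddChar (G j) ℂ) n (w j)
            exact_mod_cast this
          have hsum : ∀ j, ∑ χ ∈ ((univ : Finset (AddChar (G j) ℂ)).filter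
              (fun χ => (2 ^ n : ℕ) • χ = w j)).filter (fun χ => χ ≠ (0 : ∀ j, AddChar (G j) ℂ) j),
              ‖hat (ψ j) χ‖ ≤ T j * ε j := by
            intro j
            calc ∑ χ ∈ ((univ : Finset (AddChar (G j) ℂ)).filter
                  (fun χ => (2 ^ n : ℕ) • χ = w j)).filter
                    (fun χ => χ ≠ (0 : ∀ j, AddChar (G j) ℂ) j), ‖hat (ψ j) χ‖
                ≤ ∑ χ ∈ ((univ : Finset (AddChar (G j) ℂ)).filter
                  (fun χ => (2 ^ n : ℕ) • χ = w j)).filter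
                    (fun χ => χ ≠ (0 : ∀ j, AddChar (G j) ℂ) j), ε j :=
                  sum_le_sum fun χ hχ => h1 j χ (mem_filter.1 hχ).2
              _ = (((univ : Finset (AddChar (G j) ℂ)).filter
                  (fun χ => (2 ^ n : ℕ) • χ = w j)).filter
                    (fun χ => χ ≠ (0 : ∀ j, AddChar (G j) ℂ) j)).card * ε j := by
                  rw [sum_const, nsmul_eq_mul]
              _ ≤ T j * ε j := by
                  refine mul_le_mul_of_nonneg_right (le_trans ?_ (hcard j)) (hε j)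
                  exact_mod_cast card_le_card (filter_subset _ _)
          refine le_trans ?_ (sum_ne_le (fun j => (univ : Finset (AddChar (G j) ℂ)).filter
            (fun χ => (2 ^ n : ℕ) • χ = w j)) 0 (fun j χ => ‖hat (ψ j) χ‖)
            (fun _ _ => norm_nonneg _) M hM (fun j => T j * ε j) ?_ hsum)
          · refine sum_le_sum_of_subset_of_nonneg ?_
              (fun χ _ _ => prod_nonneg fun j _ => norm_nonneg _)
            intro χ hχ
            rw [mem_filter, mem_erase] at hχ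
            rw [mem_filter, Fintype.mem_piFinset]
            refine ⟨fun j => ?_, hχ.1.1⟩
            rw [mem_filter]
            exact ⟨mem_univ _, congrFun hχ.2 j⟩
          · intro j
            rw [← sum_filter_add_sum_filter_not _ (fun χ => χ ≠ (0 : ∀ j, AddChar (G j) ℂ) j)]
            have h3 : ∑ χ ∈ ((univ : Finset (AddChar (G j) ℂ)).filter
                (fun χ => (2 ^ n : ℕ) • χ = w j)).filter
                  (fun χ => ¬ χ ≠ (0 : ∀ j, AddChar (G j) ℂ) j), ‖hat (ψ j) χ‖ ≤ ‖hat (ψ j) 0‖ := by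
              calc _ ≤ ∑ χ ∈ ({0} : Finset (AddChar (G j) ℂ)), ‖hat (ψ j) χ‖ := by
                    refine sum_le_sum_of_subset_of_nonneg ?_ (fun χ _ _ => norm_nonneg _)
                    intro χ hχ
                    rw [mem_filter, not_not] at hχ
                    rw [mem_singleton]
                    exact hχ.2
                _ = _ := by rw [sum_singleton]
            have h4 : ‖hat (ψ j) 0‖ ≤ ‖hat (ψ j) 0 - c j‖ + ‖c j‖ := norm_le_norm_sub_add _ _
            linarith [h0 j, hcM j, hsum j]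
      _ = ((W.image (fun χ j => (2 ^ n : ℕ) • χ j)).card : ℝ) * ((∑ j, T j * ε j) * M ^ n) := by
          rw [sum_const, nsmul_eq_mul]
      _ ≤ ℱ.index * ((∑ j, T j * ε j) * M ^ n) := by
          refine mul_le_mul_of_nonneg_right (by exact_mod_cast hcount) ?_
          refine mul_nonneg (sum_nonneg fun j _ => mul_nonneg (by linarith [hT1 j]) (hε j)) ?_
          positivity
  calc ‖∏ j, hat (ψ j) ((0 : ∀ j, AddChar (G j) ℂ) j) +
        ∑ χ ∈ W.erase 0, ∏ j, hat (ψ j) (χ j) - ∏ j, c j‖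
      = ‖(∏ j, hat (ψ j) ((0 : ∀ j, AddChar (G j) ℂ) j) - ∏ j, c j) +
        ∑ χ ∈ W.erase 0, ∏ j, hat (ψ j) (χ j)‖ := by congr 1; ring
    _ ≤ (∑ j, T j * ε j) * M ^ n + ℱ.index * ((∑ j, T j * ε j) * M ^ n) :=
        le_trans (norm_add_le _ _) (add_le_add e0 e1)
    _ = _ := by ring

end Estimate

section Orbit

/-- Averages over orbits of averages. -/
theorem orbit_avg {𝒢 P A : Type} [Group 𝒢] [MulAction 𝒢 P] [Finite P] (ℱ : Subgroup 𝒢)
    (H : Finset A) (hne : H.Nonempty) (t : A → P → P)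
    (hH : ∀ h ∈ H, ∃ g ∈ ℱ, ∀ y : P, g • y = t h y) (Ψ : P → ℝ) (c ε : ℝ)
    (h : ∀ y, |(∑ h ∈ H, Ψ (t h y)) / H.card - c| ≤ ε) (x : P) :
    |(∑ᶠ y ∈ MulAction.orbit ℱ x, Ψ y) / Nat.card (MulAction.orbit ℱ x) - c| ≤ ε := by
  classical
  set O := (Set.toFinite (MulAction.orbit ℱ x)).toFinset with hO
  have hmem : ∀ y, y ∈ O ↔ y ∈ MulAction.orbit ℱ x := fun y => by rw [hO, Set.Finite.mem_toFinset]
  have hcard : Nat.card (MulAction.orbit ℱ x) = O.card := by
    rw [hO, Nat.card_coe_set_eq, Set.ncard_eq_toFinset_card _ (Set.toFinite _)]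
  have hOne : O.Nonempty := ⟨x, (hmem x).2 (MulAction.mem_orbit_self x)⟩
  rw [finsum_mem_eq_finite_toFinset_sum _ (Set.toFinite _), ← hO, hcard]
  have hS : ∀ h ∈ H, ∑ y ∈ O, Ψ (t h y) = ∑ y ∈ O, Ψ y := by
    intro a ha
    obtain ⟨g, hg, hgy⟩ := hH a ha
    refine sum_bij' (fun y _ => g • y) (fun y _ => g⁻¹ • y) ?_ ?_ ?_ ?_ ?_
    · intro y hy
      rw [hmem] at hy ⊢
      obtain ⟨k, rfl⟩ := hy
      exact ⟨⟨g, hg⟩ * k, mul_smul _ _ _⟩
    · intro y hy
      rw [hmem] at hy ⊢
      obtain ⟨k, rfl⟩ := hy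
      exact ⟨⟨g⁻¹, inv_mem hg⟩ * k, mul_smul _ _ _⟩
    · intro y _
      exact inv_smul_smul _ _
    · intro y _
      exact smul_inv_smul _ _
    · intro y _
      rw [hgy]
  have hH0 : (H.card : ℝ) ≠ 0 := by exact_mod_cast hne.card_pos.ne'
  have hO0 : (0 : ℝ) < O.card := by exact_mod_cast hOne.card_pos
  have e1 : ∑ y ∈ O, Ψ y = ∑ y ∈ O, (∑ h ∈ H, Ψ (t h y)) / H.card := by
    rw [← sum_div, sum_comm, sum_congr rfl hS, sum_const, nsmul_eq_mul, mul_comm, mul_div_assoc,
      div_self hH0, mul_one]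
  have e2 : (∑ y ∈ O, Ψ y) / O.card - c = (∑ y ∈ O, ((∑ h ∈ H, Ψ (t h y)) / H.card - c)) / O.card := by
    rw [sum_sub_distrib, ← e1, sum_const, nsmul_eq_mul]
    field_simp
  rw [e2, abs_div, abs_of_pos hO0, div_le_iff₀ hO0]
  calc |∑ y ∈ O, ((∑ h ∈ H, Ψ (t h y)) / H.card - c)| ≤ ∑ y ∈ O, |(∑ h ∈ H, Ψ (t h y)) / H.card - c| :=
        abs_sum_le_sum_abs _ _
    _ ≤ ∑ _y ∈ O, ε := sum_le_sum fun y _ => h y
    _ = ε * O.card := by rw [sum_const, nsmul_eq_mul, mul_comm]

end Orbit

section Convergence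

variable {Z : Type} [TopologicalSpace Z] [CompactSpace Z]

theorem closed_conv (L : ℕ → C(Z, ℝ) →ₗ[ℝ] ℝ) (I : C(Z, ℝ) →ₗ[ℝ] ℝ)
    (hL : ∀ k f, |L k f| ≤ ‖f‖) (hI : ∀ f, |I f| ≤ ‖f‖) :
    IsClosed {f : C(Z, ℝ) | Tendsto (fun k => L k f) atTop (𝓝 (I f))} := by
  rw [← closure_subset_iff_isClosed]
  intro f hf
  change Tendsto (fun k => L k f) atTop (𝓝 (I f))
  rw [Metric.tendsto_atTop]
  intro ε hε
  obtain ⟨g, hg, hfg⟩ := Metric.mem_closure_iff.1 hf (ε / 3) (by positivity)
  obtain ⟨K, hK⟩ := Metric.tendsto_atTop.1 hg (ε / 3) (by positivity)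
  refine ⟨K, fun k hk => ?_⟩
  have h1 := hK k hk
  rw [Real.dist_eq] at h1 ⊢
  rw [dist_eq_norm] at hfg
  have h2 : |L k (f - g)| ≤ ‖f - g‖ := hL k _
  have h3 : |I (f - g)| ≤ ‖f - g‖ := hI _
  rw [map_sub] at h2 h3
  have h4 : L k f - I f = (L k f - L k g) + (L k g - I g) - (I f - I g) := by ring
  rw [h4]
  calc |(L k f - L k g) + (L k g - I g) - (I f - I g)|
      ≤ |L k f - L k g| + |L k g - I g| + |I f - I g| := by
        refine (abs_sub _ _).trans (add_le_add (abs_add_le _ _) le_rfl)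
    _ < ε := by linarith

/-- Products of functions of the coordinates. -/
def prodFn {n : ℕ} {X : Fin n → Type} [∀ j, TopologicalSpace (X j)]
    (g : ∀ j, C(X j, ℝ)) : C((∀ j, X j), ℝ) :=
  ∏ j, (g j).comp ⟨fun z => z j, continuous_apply j⟩

theorem prodFn_apply {n : ℕ} {X : Fin n → Type} [∀ j, TopologicalSpace (X j)]
    (g : ∀ j, C(X j, ℝ)) (z : ∀ j, X j) : prodFn g z = ∏ j, g j (z j) := by
  simp [prodFn, ContinuousMap.prod_apply]

theorem prodFn_continuous {n : ℕ} {X : Fin n → Type} [∀ j, TopologicalSpace (X j)]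
    [∀ j, CompactSpace (X j)] :
    Continuous (prodFn : (∀ j, C(X j, ℝ)) → C((∀ j, X j), ℝ)) := by
  unfold prodFn
  refine continuous_finsetProd _ fun j _ => ?_
  exact (ContinuousMap.continuous_precomp _).comp (continuous_apply j)

theorem dense_span {n : ℕ} {X : Fin n → Type} [∀ j, TopologicalSpace (X j)]
    [∀ j, CompactSpace (X j)] [∀ j, T2Space (X j)] :
    Dense ((Submodule.span ℝ (Set.range (prodFn : (∀ j, C(X j, ℝ)) → C((∀ j, X j), ℝ))) :
      Submodule ℝ C((∀ j, X j), ℝ)) : Set C((∀ j, X j), ℝ)) := by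
  classical
  let Mo : Submonoid C((∀ j, X j), ℝ) :=
    { carrier := Set.range prodFn
      one_mem' := ⟨1, by ext z; simp [prodFn_apply]⟩
      mul_mem' := by
        rintro _ _ ⟨g, rfl⟩ ⟨h, rfl⟩
        refine ⟨g * h, ?_⟩
        ext z
        simp [prodFn_apply, prod_mul_distrib] }
  have h1 : (Algebra.adjoin ℝ (Mo : Set C((∀ j, X j), ℝ))).toSubmodule =
      Submodule.span ℝ (Mo : Set C((∀ j, X j), ℝ)) := by
    rw [Algebra.adjoin_eq_span, Submonoid.closure_eq]
  have hsep : (Algebra.adjoin ℝ (Mo : Set C((∀ j, X j), ℝ))).SeparatesPoints := by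
    intro z z' hz
    obtain ⟨j, hj⟩ : ∃ j, z j ≠ z' j := Function.ne_iff.1 hz
    obtain ⟨g, hg0, hg1, -⟩ := exists_continuous_zero_one_of_isClosed
      (isClosed_singleton (x := z j)) (isClosed_singleton (x := z' j))
      (by rw [Set.disjoint_singleton]; exact hj)
    refine ⟨_, ⟨prodFn (Function.update 1 j g), Algebra.subset_adjoin ⟨_, rfl⟩, rfl⟩, ?_⟩
    have e : ∀ w : ∀ j, X j, prodFn (Function.update (1 : ∀ j, C(X j, ℝ)) j g) w = g (w j) := by
      intro w
      rw [prodFn_apply, prod_eq_single j]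
      · rw [Function.update_self]
      · intro i _ hi
        rw [Function.update_of_ne hi]
        rfl
      · intro h
        exact absurd (mem_univ _) h
    change prodFn (Function.update (1 : ∀ j, C(X j, ℝ)) j g) z ≠
      prodFn (Function.update (1 : ∀ j, C(X j, ℝ)) j g) z'
    rw [e, e, hg0 rfl, hg1 rfl]
    simp
  have h2 := ContinuousMap.subalgebra_topologicalClosure_eq_top_of_separatesPoints _ hsep
  have h3 : (Submodule.span ℝ (Set.range (prodFn : (∀ j, C(X j, ℝ)) → C((∀ j, X j), ℝ))) :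
      Set C((∀ j, X j), ℝ)) = (Algebra.adjoin ℝ (Mo : Set C((∀ j, X j), ℝ)) : Set _) := by
    rw [← Subalgebra.coe_toSubmodule, h1]
    rfl
  rw [h3, dense_iff_closure_eq, ← Subalgebra.topologicalClosure_coe, h2]
  rfl

end Convergence

section Main

variable {𝒢 : Type} [Group 𝒢] {n : ℕ} {X : Fin n → Type} [∀ j, TopologicalSpace (X j)]
  [∀ j, CompactSpace (X j)] [∀ j, MeasurableSpace (X j)]

theorem orbitAverage_eq {P : Type} [MulAction 𝒢 P] [Finite P] (ℱ : Subgroup 𝒢) (x : P)
    (Ψ : P → ℝ) : orbitAverage ℱ x Ψ =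
      (∑ y ∈ (Set.toFinite (MulAction.orbit ℱ x)).toFinset, Ψ y) /
        (Set.toFinite (MulAction.orbit ℱ x)).toFinset.card := by
  unfold orbitAverage
  rw [finsum_mem_eq_finite_toFinset_sum _ (Set.toFinite _), Nat.card_coe_set_eq,
    Set.ncard_eq_toFinset_card _ (Set.toFinite _)]

/-- The rate of convergence. -/
theorem rate (ℱ : Subgroup 𝒢) [ℱ.FiniteIndex] (m : ∀ j, Measure (X j))
    (S : ∀ j, CMSpace 𝒢 (X j)) (𝒯 : ∀ j, Set C(X j, ℝ))
    (hD : ∀ j, TwistedDuke (S j) (m j) (𝒯 j)) (hG : ∀ j, GenusBound (S j))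
    (φ : ∀ j, C(X j, ℝ)) (hφ : ∀ j, φ j ∈ 𝒯 j) :
    ∃ C δ : ℝ, 0 < δ ∧ ∀ (D : ∀ j, (S j).Order) (x : ∀ j, (S j).P (D j)),
      (∀ i j, i ≠ j → (S i).s (D i) ≠ (S j).s (D j)) →
      |orbitAverage ℱ x (fun y => ∏ j, φ j ((S j).pt (D j) (y j))) - ∏ j, ∫ t, φ j t ∂(m j)| ≤
        C * ∑ j, ((S j).disc (D j) : ℝ) ^ (-δ) := by
  classical
  choose δ hδ0 hδ using hD
  choose C hC using fun j => hδ j (φ j) (hφ j)
  choose C' hC' using fun j => hG j (δ j / (2 * (n + 1))) (by have := hδ0 j; positivity)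
  -- constants
  set C₀ : Fin n → ℝ := fun j => |C j| with hC₀
  set C₁ : Fin n → ℝ := fun j => 1 + |C' j| ^ n with hC₁
  set M : ℝ := 1 + ∑ j, (|∫ t, φ j t ∂(m j)| + C₀ j + C₁ j * C₀ j) with hM
  obtain ⟨δ', hδ'0, hδ'⟩ : ∃ δ' : ℝ, 0 < δ' ∧ ∀ j, δ' ≤ δ j / 2 := by
    rcases Nat.eq_zero_or_pos n with rfl | hn
    · exact ⟨1, one_pos, fun j => j.elim0⟩
    · have : Nonempty (Fin n) := ⟨⟨0, hn⟩⟩
      refine ⟨univ.inf' univ_nonempty (fun j => δ j / 2), ?_, fun j => ?_⟩
      · rw [lt_inf'_iff]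
        intro j _
        have := hδ0 j
        positivity
      · exact inf'_le _ (mem_univ j)
  have hC₁0 : ∀ j, 1 ≤ C₁ j := fun j => by simp only [hC₁]; linarith [pow_nonneg (abs_nonneg (C' j)) n]
  have hC₀0 : ∀ j, 0 ≤ C₀ j := fun j => abs_nonneg _
  refine ⟨(ℱ.index + 1) * (∑ j, C₁ j * C₀ j) * M ^ n, δ', hδ'0, fun D x hdist => ?_⟩
  have hMt : ∀ j, 0 ≤ |∫ t, φ j t ∂(m j)| + C₀ j + C₁ j * C₀ j := fun j => by
    have := hC₀0 j
    have := hC₁0 j
    have := abs_nonneg (∫ t, φ j t ∂(m j))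
    have : 0 ≤ C₁ j * C₀ j := mul_nonneg (by linarith) (hC₀0 j)
    linarith
  have hM1 : 1 ≤ M := by
    have : 0 ≤ ∑ j, (|∫ t, φ j t ∂(m j)| + C₀ j + C₁ j * C₀ j) := sum_nonneg fun j _ => hMt j
    linarith
  have hd1 : ∀ j, (1 : ℝ) ≤ (S j).disc (D j) := fun j => by exact_mod_cast (S j).disc_pos (D j)
  have hd0 : ∀ j, (0 : ℝ) < (S j).disc (D j) := fun j => lt_of_lt_of_le one_pos (hd1 j)
  -- the parameters of the estimate
  set ε : Fin n → ℝ := fun j => C₀ j * ((S j).disc (D j) : ℝ) ^ (-(δ j)) with hε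
  set T : Fin n → ℝ := fun j => C₁ j * ((S j).disc (D j) : ℝ) ^ (δ j / 2) with hT
  have hε0 : ∀ j, 0 ≤ ε j := fun j => mul_nonneg (hC₀0 j) (Real.rpow_nonneg (hd0 j).le _)
  have hεC : ∀ j, ε j ≤ C₀ j := fun j => by
    refine mul_le_of_le_one_right (hC₀0 j) ?_
    exact Real.rpow_le_one_of_one_le_of_nonpos (hd1 j) (by linarith [hδ0 j])
  have hTε : ∀ j, T j * ε j ≤ C₁ j * C₀ j * ((S j).disc (D j) : ℝ) ^ (-δ') := fun j => by
    have e : T j * ε j = C₁ j * C₀ j * ((S j).disc (D j) : ℝ) ^ (-(δ j / 2)) := by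
      simp only [hT, hε]
      have : ((S j).disc (D j) : ℝ) ^ (-(δ j / 2)) =
          ((S j).disc (D j) : ℝ) ^ (δ j / 2) * ((S j).disc (D j) : ℝ) ^ (-(δ j)) := by
        rw [← Real.rpow_add (hd0 j)]
        congr 1
        ring
      rw [this]
      ring
    rw [e]
    refine mul_le_mul_of_nonneg_left ?_ (mul_nonneg (by linarith [hC₁0 j]) (hC₀0 j))
    exact Real.rpow_le_rpow_of_exponent_le (hd1 j) (by linarith [hδ' j])
  have hTε' : ∀ j, T j * ε j ≤ C₁ j * C₀ j := fun j => by
    refine (hTε j).trans (mul_le_of_le_one_right (mul_nonneg (by linarith [hC₁0 j]) (hC₀0 j)) ?_)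
    exact Real.rpow_le_one_of_one_le_of_nonpos (hd1 j) (by linarith)
  have hT1 : ∀ j, 1 ≤ T j := fun j => by
    have : 1 ≤ ((S j).disc (D j) : ℝ) ^ (δ j / 2) :=
      Real.one_le_rpow (hd1 j) (by linarith [hδ0 j])
    calc (1 : ℝ) = 1 * 1 := (one_mul 1).symm
      _ ≤ T j := mul_le_mul (hC₁0 j) this zero_le_one (by linarith [hC₁0 j])
  have hTc : ∀ j, (((univ : Finset (AddChar ((S j).Cl (D j)) ℂ)).filter
      (fun χ => χ + χ = 0)).card : ℝ) ^ n ≤ T j := fun j => by
    have h1 : (((univ : Finset (AddChar ((S j).Cl (D j)) ℂ)).filter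
      (fun χ => χ + χ = 0)).card : ℝ) ≤
        |C' j| * ((S j).disc (D j) : ℝ) ^ (δ j / (2 * (n + 1))) := by
      have := hC' j (D j)
      rw [Nat.card_eq_fintype_card, Fintype.card_subtype] at this
      refine this.trans (mul_le_mul_of_nonneg_right (le_abs_self _) (Real.rpow_nonneg (hd0 j).le _))
    calc (((univ : Finset (AddChar ((S j).Cl (D j)) ℂ)).filter
          (fun χ => χ + χ = 0)).card : ℝ) ^ n
        ≤ (|C' j| * ((S j).disc (D j) : ℝ) ^ (δ j / (2 * (n + 1)))) ^ n :=
          pow_le_pow_left₀ (Nat.cast_nonneg _) h1 n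
      _ = |C' j| ^ n * ((S j).disc (D j) : ℝ) ^ (δ j / (2 * (n + 1)) * n) := by
          rw [mul_pow, ← Real.rpow_natCast (((S j).disc (D j) : ℝ) ^ _), ← Real.rpow_mul (hd0 j).le]
      _ ≤ C₁ j * ((S j).disc (D j) : ℝ) ^ (δ j / 2) := by
          refine mul_le_mul ?_ ?_ (Real.rpow_nonneg (hd0 j).le _) (by linarith [hC₁0 j])
          · simp only [hC₁]; linarith
          · refine Real.rpow_le_rpow_of_exponent_le (hd1 j) ?_
            rw [div_mul_eq_mul_div, div_le_div_iff₀ (by positivity) (by norm_num)]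
            nlinarith [hδ0 j]
  have hcM : ∀ j, ‖((∫ t, φ j t ∂(m j) : ℝ) : ℂ)‖ + ε j + T j * ε j ≤ M := fun j => by
    rw [Complex.norm_real, Real.norm_eq_abs]
    have h1 : |∫ t, φ j t ∂(m j)| + C₀ j + C₁ j * C₀ j ≤
        ∑ j, (|∫ t, φ j t ∂(m j)| + C₀ j + C₁ j * C₀ j) :=
      single_le_sum (f := fun j => |∫ t, φ j t ∂(m j)| + C₀ j + C₁ j * C₀ j)
        (fun j _ => hMt j) (mem_univ j)
    linarith [hεC j, hTε' j]
  -- the structure maps
  let s : Fin n → 𝒢 →* ℤˣ := fun j => (S j).s (D j)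
  let a : ∀ j, 𝒢 → (S j).Cl (D j) := fun j => (S j).artin (D j)
  have hmul : ∀ j g h, s j g = 1 → s j h = 1 → a j (g * h) = a j g + a j h :=
    fun j => (S j).artin_mul (D j)
  have : Fintype (image hmul ℱ) := Fintype.ofFinite _
  have main := fun y : ∀ j, (S j).P (D j) =>
    estimate (s := s) (a := a) hmul (fun j => (S j).artin_surj (D j))
      (fun j => (S j).artin_conj (D j)) hdist ℱ
      (fun j c => ((φ j ((S j).pt (D j) (c +ᵥ y j)) : ℝ) : ℂ))
      (fun j => ((∫ t, φ j t ∂(m j) : ℝ) : ℂ)) ε T M hM1 hε0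
      (fun j => by
        have := hC j (D j) (y j) 0
        rw [if_pos rfl] at this
        refine this.trans (mul_le_mul_of_nonneg_right (le_abs_self _) (Real.rpow_nonneg (hd0 j).le _)))
      (fun j χ hχ => by
        have := hC j (D j) (y j) χ
        rw [if_neg hχ, sub_zero] at this
        refine this.trans (mul_le_mul_of_nonneg_right (le_abs_self _) (Real.rpow_nonneg (hd0 j).le _)))
      hTc hT1 hcM
  have orb := orbit_avg (P := ∀ j, (S j).P (D j)) ℱ (univ : Finset (image hmul ℱ)) univ_nonempty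
    (fun h y j => (h : ∀ j, (S j).Cl (D j)) j +ᵥ y j)
    (by
      rintro ⟨h, g, hg, hgh⟩ _
      refine ⟨g, hg.1, fun y => ?_⟩
      funext j
      have := (S j).reciprocity (D j) g (mem_NQ.1 hg.2 j) (y j)
      rw [Pi.smul_apply, this]
      exact congrArg (fun c => c +ᵥ y j) (hgh j))
    (fun y => ∏ j, φ j ((S j).pt (D j) (y j))) (∏ j, ∫ t, φ j t ∂(m j))
    ((ℱ.index + 1) * (∑ j, T j * ε j) * M ^ n)
    (fun y => by
      have := main y
      rw [← Real.norm_eq_abs, ← Complex.norm_real]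
      refine le_trans (le_of_eq ?_) this
      congr 1
      push_cast
      rw [card_univ])
    x
  refine orb.trans ?_
  have hsum : ∑ j, T j * ε j ≤ (∑ j, C₁ j * C₀ j) * ∑ j, ((S j).disc (D j) : ℝ) ^ (-δ') := by
    calc ∑ j, T j * ε j ≤ ∑ j, C₁ j * C₀ j * ((S j).disc (D j) : ℝ) ^ (-δ') :=
          sum_le_sum fun j _ => hTε j
      _ ≤ ∑ j, C₁ j * C₀ j * ∑ i, ((S i).disc (D i) : ℝ) ^ (-δ') := by
          refine sum_le_sum fun j _ => mul_le_mul_of_nonneg_left ?_
            (mul_nonneg (by linarith [hC₁0 j]) (hC₀0 j))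
          exact single_le_sum (f := fun i => ((S i).disc (D i) : ℝ) ^ (-δ'))
            (fun i _ => Real.rpow_nonneg (hd0 i).le _) (mem_univ j)
      _ = _ := by rw [sum_mul]
  calc (ℱ.index + 1) * (∑ j, T j * ε j) * M ^ n
      ≤ (ℱ.index + 1) * ((∑ j, C₁ j * C₀ j) * ∑ j, ((S j).disc (D j) : ℝ) ^ (-δ')) * M ^ n := by
        refine mul_le_mul_of_nonneg_right (mul_le_mul_of_nonneg_left hsum (by positivity)) ?_
        exact pow_nonneg (by linarith) n
    _ = _ := by ring

end Main

section Final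

variable {𝒢 : Type} [Group 𝒢] {n : ℕ} {X : Fin n → Type} [∀ j, TopologicalSpace (X j)]
  [∀ j, CompactSpace (X j)] [∀ j, T2Space (X j)] [∀ j, SecondCountableTopology (X j)]
  [∀ j, MeasurableSpace (X j)] [∀ j, BorelSpace (X j)]

theorem disc_tendsto {X : Type} (S : CMSpace 𝒢 X) (D : ℕ → S.Order) (x : ∀ k, S.P (D k))
    (h : ∀ p : (Σ D, S.P D), {k | (⟨D k, x k⟩ : Σ D, S.P D) = p}.Finite) :
    Tendsto (fun k => (S.disc (D k) : ℝ)) atTop atTop := by
  refine tendsto_natCast_atTop_atTop.comp (tendsto_atTop.2 fun B => ?_)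
  have hfin : {k | S.disc (D k) < B}.Finite := by
    have h1 : (⋃ D₀ ∈ {D | S.disc D ≤ B}, ⋃ p : S.P D₀,
        {k | (⟨D k, x k⟩ : Σ D, S.P D) = ⟨D₀, p⟩}).Finite :=
      (S.finite_disc B).biUnion fun D₀ _ => Set.finite_iUnion fun p => h _
    refine h1.subset fun k hk => ?_
    simp only [Set.mem_iUnion]
    exact ⟨D k, (le_of_lt hk : S.disc (D k) ≤ B), x k, rfl⟩
  rw [← Nat.cofinite_eq_atTop]
  filter_upwards [hfin.compl_mem_cofinite] with k hk
  exact not_lt.1 hk

omit [∀ j, T2Space (X j)] in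
theorem integrable_pi (m : ∀ j, Measure (X j)) [∀ j, IsProbabilityMeasure (m j)]
    (f : C((∀ j, X j), ℝ)) : Integrable (fun z => f z) (Measure.pi m) :=
  (integrable_const ‖f‖).mono' f.continuous.measurable.aestronglyMeasurable
    (Eventually.of_forall fun z => f.norm_coe_le_norm z)

/-- **Special points with pairwise distinct CM fields.** Let `X_j`, `j = 1, …, n`, be compactified
modular curves with the structures `S j` of complex multiplication, invariant probability measures
`m_j`, and let `ℱ` be a subgroup of finite index of the absolute Galois group (that of the base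
field `F`).
(1) For all test functions `φ_j` there are `C` and `δ > 0` such that for all special points
`x = (x_1, …, x_n)` whose coordinates have pairwise different CM fields, the mean value of
`∏ φ_j` over the Galois orbit of `x` over `F` differs from `∏ ∫ φ_j dm_j` by at most
`C ∑_j |disc x_j|^(-δ)`.
(2) Let `x_k = (x_{k,1}, …, x_{k,n})` be a sequence of special points such that for each `k` the CM
fields of the coordinates are pairwise different and each coordinate takes each value only finitely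
often. Then the uniform measures on the Galois orbits of the `x_k` over `F` converge weakly to
`m_1 × … × m_n`. -/
theorem result (ℱ : Subgroup 𝒢) [ℱ.FiniteIndex] (m : ∀ j, Measure (X j))
    [∀ j, IsProbabilityMeasure (m j)] (S : ∀ j, CMSpace 𝒢 (X j)) (𝒯 : ∀ j, Set C(X j, ℝ))
    (h𝒯 : ∀ j, Dense (𝒯 j)) (hD : ∀ j, TwistedDuke (S j) (m j) (𝒯 j))
    (hG : ∀ j, GenusBound (S j)) :
    (∀ φ : ∀ j, C(X j, ℝ), (∀ j, φ j ∈ 𝒯 j) →
      ∃ C δ : ℝ, 0 < δ ∧ ∀ (D : ∀ j, (S j).Order) (x : ∀ j, (S j).P (D j)),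
        (∀ i j, i ≠ j → (S i).s (D i) ≠ (S j).s (D j)) →
        |orbitAverage ℱ x (fun y => ∏ j, φ j ((S j).pt (D j) (y j))) - ∏ j, ∫ t, φ j t ∂(m j)| ≤
          C * ∑ j, ((S j).disc (D j) : ℝ) ^ (-δ)) ∧
    (∀ (D : ℕ → ∀ j, (S j).Order) (x : ∀ k j, (S j).P (D k j)),
      (∀ k i j, i ≠ j → (S i).s (D k i) ≠ (S j).s (D k j)) →
      (∀ j (p : (Σ D, (S j).P D)), {k | (⟨D k j, x k j⟩ : Σ D, (S j).P D) = p}.Finite) →
      ∀ f : C((∀ j, X j), ℝ), Tendsto
        (fun k => orbitAverage ℱ (x k) (fun y => f (fun j => (S j).pt (D k j) (y j))))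
        atTop (𝓝 (∫ z, f z ∂(Measure.pi m)))) := by
  refine ⟨rate ℱ m S 𝒯 hD hG, fun D x hdist hfin => ?_⟩
  -- the functionals
  let L : ℕ → C((∀ j, X j), ℝ) →ₗ[ℝ] ℝ := fun k =>
    { toFun := fun f => orbitAverage ℱ (x k) (fun y => f (fun j => (S j).pt (D k j) (y j)))
      map_add' := by
        intro f g
        simp only [orbitAverage_eq, ContinuousMap.add_apply, sum_add_distrib, add_div]
      map_smul' := by
        intro c f
        simp only [orbitAverage_eq, ContinuousMap.smul_apply, smul_eq_mul, ← mul_sum,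
          mul_div_assoc, RingHom.id_apply] }
  let I : C((∀ j, X j), ℝ) →ₗ[ℝ] ℝ :=
    { toFun := fun f => ∫ z, f z ∂(Measure.pi m)
      map_add' := by
        intro f g
        exact integral_add (integrable_pi m f) (integrable_pi m g)
      map_smul' := by
        intro c f
        exact integral_const_mul c _ }
  have hL : ∀ k f, |L k f| ≤ ‖f‖ := by
    intro k f
    change |orbitAverage ℱ (x k) (fun y => f (fun j => (S j).pt (D k j) (y j)))| ≤ ‖f‖
    rw [orbitAverage_eq]
    set O := (Set.toFinite (MulAction.orbit ℱ (x k))).toFinset with hO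
    have hOne : O.Nonempty :=
      ⟨x k, (Set.Finite.mem_toFinset _).2 (MulAction.mem_orbit_self (x k))⟩
    have hO0 : (0 : ℝ) < O.card := by exact_mod_cast hOne.card_pos
    rw [abs_div, abs_of_pos hO0, div_le_iff₀ hO0]
    calc |∑ y ∈ O, f (fun j => (S j).pt (D k j) (y j))|
        ≤ ∑ y ∈ O, |f (fun j => (S j).pt (D k j) (y j))| := abs_sum_le_sum_abs _ _
      _ ≤ ∑ _y ∈ O, ‖f‖ := sum_le_sum fun y _ => f.norm_coe_le_norm _
      _ = ‖f‖ * O.card := by rw [sum_const, nsmul_eq_mul, mul_comm]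
  have hI : ∀ f, |I f| ≤ ‖f‖ := by
    intro f
    change |∫ z, f z ∂(Measure.pi m)| ≤ ‖f‖
    have := norm_integral_le_of_norm_le_const (μ := Measure.pi m) (C := ‖f‖)
      (Eventually.of_forall fun z => f.norm_coe_le_norm z)
    simpa using this
  have hclosed := closed_conv L I hL hI
  -- products of test functions
  have h1 : ∀ φ : ∀ j, C(X j, ℝ), (∀ j, φ j ∈ 𝒯 j) →
      Tendsto (fun k => L k (prodFn φ)) atTop (𝓝 (I (prodFn φ))) := by
    intro φ hφ
    obtain ⟨C, δ, hδ, hC⟩ := rate ℱ m S 𝒯 hD hG φ hφ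
    have e : I (prodFn φ) = ∏ j, ∫ t, φ j t ∂(m j) := by
      change ∫ z, prodFn φ z ∂(Measure.pi m) = _
      simp only [prodFn_apply]
      exact integral_fintype_prod_eq_prod (fun j t => φ j t)
    rw [e, tendsto_iff_norm_sub_tendsto_zero]
    have h0 : Tendsto (fun k => C * ∑ j, ((S j).disc (D k j) : ℝ) ^ (-δ)) atTop (𝓝 0) := by
      have : Tendsto (fun k => C * ∑ j : Fin n, ((S j).disc (D k j) : ℝ) ^ (-δ)) atTop
          (𝓝 (C * ∑ _j : Fin n, (0 : ℝ))) := by
        refine Tendsto.const_mul _ (tendsto_finsetSum _ fun j _ => ?_)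
        exact (tendsto_rpow_neg_atTop hδ).comp
          (disc_tendsto (S j) (fun k => D k j) (fun k => x k j) (hfin j))
      simpa using this
    refine squeeze_zero (fun k => norm_nonneg _) (fun k => ?_) h0
    rw [Real.norm_eq_abs]
    have := hC (D k) (x k) (hdist k)
    change |orbitAverage ℱ (x k) (fun y => prodFn φ (fun j => (S j).pt (D k j) (y j))) - _| ≤ _
    simpa only [prodFn_apply] using this
  -- all products
  have h2 : ∀ g : ∀ j, C(X j, ℝ), prodFn g ∈
      {f : C((∀ j, X j), ℝ) | Tendsto (fun k => L k f) atTop (𝓝 (I f))} := by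
    have hc := hclosed.preimage (prodFn_continuous (X := X))
    have hd : Dense (Set.pi Set.univ 𝒯) := dense_pi _ fun j _ => h𝒯 j
    have hsub : Set.pi Set.univ 𝒯 ⊆ prodFn ⁻¹'
        {f : C((∀ j, X j), ℝ) | Tendsto (fun k => L k f) atTop (𝓝 (I f))} :=
      fun φ hφ => h1 φ fun j => hφ j (Set.mem_univ j)
    intro g
    have := hc.closure_subset_iff.2 hsub
    exact this (hd g)
  -- the span
  have h3 : (Submodule.span ℝ (Set.range (prodFn : (∀ j, C(X j, ℝ)) → C((∀ j, X j), ℝ))) :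
      Set C((∀ j, X j), ℝ)) ⊆
      {f : C((∀ j, X j), ℝ) | Tendsto (fun k => L k f) atTop (𝓝 (I f))} := by
    intro f hf
    refine Submodule.span_induction (p := fun f _ => Tendsto (fun k => L k f) atTop (𝓝 (I f)))
      ?_ ?_ ?_ ?_ hf
    · rintro _ ⟨g, rfl⟩
      exact h2 g
    · simp only [map_zero]
      exact tendsto_const_nhds
    · intro f g _ _ hf hg
      simp only [map_add]
      exact hf.add hg
    · intro c f _ hf
      simp only [map_smul]
      exact hf.const_smul c
  intro f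
  exact (hclosed.closure_subset_iff.2 h3) (dense_span f)

end Final

end Pool.Agent.Results.MP_ad7a55_nt.DistinctFields
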