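import Mathlib

/-!
# Special points with one CM field and independent conductors are equidistributed

Let `x_k = (x_{k,1}, …, x_{k,n})` be special points of `Y(1)^n` such that all coordinates of `x_k` have
complex multiplication by orders of one imaginary quadratic field `K_k`, with conductors
`f_{k,1}, …, f_{k,n}`. We show: if `|d_{K_k}| f_{k,1}² → ∞` and if

  `f_{k,j} / gcd(lcm(f_{k,1}, …, f_{k,j-1}), f_{k,j}) → ∞` for `j = 2, …, n`,

then the Galois orbits of the `x_k` over `ℚ` are equidistributed in `Y(1)^n`. For `n = 2` this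
(together with the same statement for the coordinates in the other order) settles all pairs with equal
CM fields for which `lcm(f_{k,1}, f_{k,2}) / gcd(f_{k,1}, f_{k,2}) → ∞`, so that for `n = 2` the remaining
case is that of a bounded ratio of the conductors, that is the mixing conjecture of Michel and Venkatesh.

What is used of complex multiplication and of class field theory is listed in the structure
`CMTower`. The analytic inputs are Duke's theorem (`Duke`) and the equidistribution of Hecke points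
(`Hecke`), in the form: if `w` lies in a fixed compact subset of `Y(1)`, the CM points of conductor `f`
over a CM point `w` of conductor `f'`, that is the descending cyclic isogenies of degree `f / f'`, are
equidistributed as `f / f' → ∞`.

Proof. The elements of the Galois group which fix the ring class field of conductor
`lcm(f_1, …, f_{j-1})` fix the first `j - 1` coordinates and permute transitively the possible `j`-th
coordinates over one CM point `w` of conductor `gcd(lcm(f_1, …, f_{j-1}), f_j)` (`mem_orbit_iff`). So in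
the average over the Galois orbit the function of the `j`-th coordinate can be replaced by its
average over the points over `w` (`average_subgroup`), and this is close to its integral for most `w`,
uniformly: few `w` are near the cusp, by Duke's theorem (`average_hecke`).
-/

open MeasureTheory Filter Topology Finset

set_option autoImplicit false

namespace Pool.Agent.Results.MP_ad7a55_nt.IndependentConductors

/-- **Complex multiplication.** `X` is the compactified `j`-line (as a topological space) and `𝒢` the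
absolute Galois group of `ℚ` (or of a number field which is linearly disjoint from all the ring class
fields used).
* `Field` is the set of the imaginary quadratic fields `K`, `disc K` the absolute value of the
  discriminant;
* `N K f` is the Galois group of the ring class field of `K` of conductor `f`;
* `P K f` is the finite set of the `j`-invariants of the elliptic curves with complex multiplication by
  the order of conductor `f` of `K`; the Galois group acts transitively on it;
* `trivial`: the elements of `P K f'` lie in the ring class field of conductor `f` if `f' ∣ f`;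
* `proj K f f'`, for `f' ∣ f`, maps the curve with the lattice `𝔞` to the curve with the lattice
  `𝔞 𝒪_{f'}`; it commutes with the action of the Galois group;
* `fibre`: the Galois group of the ring class field of conductor `f` permutes transitively the points
  of `P K f'` over one point of `P K (gcd f f')` (the kernel of `Pic(𝒪_{f'}) → Pic(𝒪_{gcd(f, f')})` is
  the image of this Galois group under the Artin map);
* `pt` is the inclusion in the space of complex points.
The values at `f = 0` are irrelevant. -/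
structure CMTower (𝒢 : Type) [Group 𝒢] (X : Type) where
  /-- the imaginary quadratic fields -/
  Field : Type
  /-- the absolute value of the discriminant -/
  disc : Field → ℕ
  disc_pos : ∀ K, 0 < disc K
  finite_disc : ∀ B : ℕ, {K | disc K ≤ B}.Finite
  /-- the Galois group of the ring class field -/
  N : Field → ℕ → Subgroup 𝒢
  /-- the CM points by the order of conductor `f` -/
  P : Field → ℕ → Type
  finP : ∀ K f, Finite (P K f)
  nonemptyP : ∀ K f, Nonempty (P K f)
  act : ∀ K f, MulAction 𝒢 (P K f)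
  transitive : ∀ K f, 0 < f → ∀ x y : P K f, ∃ g : 𝒢, g • x = y
  trivial : ∀ K f f', 0 < f → f' ∣ f → ∀ g ∈ N K f, ∀ x : P K f', g • x = x
  /-- the projection to the CM points by the order of conductor `f'`, `f' ∣ f` -/
  proj : ∀ K f f', P K f → P K f'
  proj_smul : ∀ K f f', 0 < f → f' ∣ f → ∀ (g : 𝒢) (x : P K f),
    proj K f f' (g • x) = g • proj K f f' x
  fibre : ∀ K f f', 0 < f → 0 < f' → ∀ x y : P K f',
    proj K f' (Nat.gcd f f') x = proj K f' (Nat.gcd f f') y → ∃ g ∈ N K f, g • x = y
  /-- the points of `X` -/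
  pt : ∀ K f, P K f → X

attribute [instance] CMTower.finP CMTower.nonemptyP CMTower.act

/-- **Duke's theorem.** The CM points by the order of conductor `f` in `K` are equidistributed as the
absolute value `|d_K| f²` of the discriminant tends to infinity. -/
def Duke {𝒢 : Type} [Group 𝒢] {X : Type} [TopologicalSpace X] [MeasurableSpace X]
    (S : CMTower 𝒢 X) (m : Measure X) : Prop :=
  ∀ (φ : C(X, ℝ)) (ε : ℝ), 0 < ε → ∃ M : ℕ, ∀ (K : S.Field) (f : ℕ), 0 < f →
    M ≤ S.disc K * f ^ 2 →
      |(∑ᶠ x : S.P K f, φ (S.pt K f x)) / Nat.card (S.P K f) - ∫ t, φ t ∂m| ≤ ε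

/-- **Equidistribution of Hecke points.** As `f / f' → ∞` the CM points of conductor `f` over a CM point
`w` of conductor `f'` (these are the descending cyclic isogenies of degree `f / f'` from `w`) are
equidistributed, uniformly for `w` in a compact subset of the open curve `Y`. -/
def Hecke {𝒢 : Type} [Group 𝒢] {X : Type} [TopologicalSpace X] [MeasurableSpace X]
    (S : CMTower 𝒢 X) (m : Measure X) (Y : Set X) : Prop :=
  ∀ (φ : C(X, ℝ)) (C : Set X), IsCompact C → C ⊆ Y → ∀ ε : ℝ, 0 < ε → ∃ M : ℕ,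
    ∀ (K : S.Field) (f f' : ℕ), 0 < f → f' ∣ f → M ≤ f / f' →
      ∀ w : S.P K f', S.pt K f' w ∈ C →
        |(∑ᶠ z ∈ {z : S.P K f | S.proj K f f' z = w}, φ (S.pt K f z)) /
          Nat.card {z : S.P K f // S.proj K f f' z = w} - ∫ t, φ t ∂m| ≤ ε

/-- The average of a function over the orbit of `x` under the group `𝒢`, that is its integral for the
measure `μ_x` of the problem. -/
noncomputable def orbitAverage (𝒢 : Type) {P : Type} [Group 𝒢] [MulAction 𝒢 P] (x : P)
    (Ψ : P → ℝ) : ℝ :=
  (∑ᶠ y ∈ MulAction.orbit 𝒢 x, Ψ y) / Nat.card (MulAction.orbit 𝒢 x)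

section Fibres

/-- Averages and maps with fibres of constant size. -/
theorem mean_fibres {A B : Type} [Fintype A] [Nonempty A] [DecidableEq B] (p : A → B)
    (S : Finset B) (hS : ∀ a, p a ∈ S) (c : ℕ)
    (hc : ∀ b ∈ S, ((univ : Finset A).filter (fun a => p a = b)).card = c) (g : B → ℝ) :
    (∑ a, g (p a)) / Fintype.card A = (∑ b ∈ S, g b) / S.card := by
  have h1 : ∑ a, g (p a) = c * ∑ b ∈ S, g b := by
    rw [← sum_fiberwise_of_maps_to (s := (univ : Finset A)) (t := S) (g := p)
      (fun a _ => hS a), mul_sum]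
    refine sum_congr rfl fun b hb => ?_
    rw [sum_congr rfl (g := fun _ => g b) (fun a ha => by rw [(mem_filter.1 ha).2]), sum_const,
      nsmul_eq_mul, hc b hb]
  have h2 : Fintype.card A = c * S.card := by
    rw [← card_univ, card_eq_sum_card_fiberwise (f := p) (t := S) (fun a _ => hS a),
      sum_congr rfl hc, sum_const, smul_eq_mul, mul_comm]
  have hA : (0 : ℝ) < Fintype.card A := by exact_mod_cast Fintype.card_pos
  have hc0 : (c : ℝ) ≠ 0 := by
    intro h
    rw [h2] at hA
    push_cast at hA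
    rw [h, zero_mul] at hA
    exact lt_irrefl _ hA
  rw [h1, h2]
  push_cast
  rw [mul_div_mul_left _ _ hc0]

/-- The average over a finite group is the average over the orbit. -/
theorem mean_group {Q Z : Type} [Group Q] [Fintype Q] [MulAction Q Z] [DecidableEq Z] (z : Z)
    (S : Finset Z) (hS : ∀ z', z' ∈ S ↔ ∃ q : Q, q • z = z') (g : Z → ℝ) :
    (∑ q : Q, g (q • z)) / Fintype.card Q = (∑ b ∈ S, g b) / S.card := by
  refine mean_fibres (fun q : Q => q • z) S (fun q => (hS _).2 ⟨q, rfl⟩)
    ((univ : Finset Q).filter (fun q => q • z = z)).card (fun b hb => ?_) g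
  obtain ⟨r, rfl⟩ := (hS b).1 hb
  refine card_bij' (fun q _ => r⁻¹ * q) (fun q _ => r * q) ?_ ?_ ?_ ?_
  · intro q hq
    rw [mem_filter] at hq ⊢
    exact ⟨mem_univ _, by rw [mul_smul, hq.2, inv_smul_smul]⟩
  · intro q hq
    rw [mem_filter] at hq ⊢
    exact ⟨mem_univ _, by rw [mul_smul, hq.2]⟩
  · intro q _
    exact mul_inv_cancel_left _ _
  · intro q _
    exact inv_mul_cancel_left _ _

/-- The average of a function pulled back by an equivariant map to a transitive set. -/
theorem mean_equivariant {𝒢 A B : Type} [Group 𝒢] [MulAction 𝒢 A] [MulAction 𝒢 B] [Fintype A]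
    [Nonempty A] [Fintype B] [DecidableEq B] (p : A → B) (hp : ∀ (g : 𝒢) a, p (g • a) = g • p a)
    (ht : ∀ b b' : B, ∃ g : 𝒢, g • b = b') (g : B → ℝ) :
    (∑ a, g (p a)) / Fintype.card A = (∑ b, g b) / Fintype.card B := by
  obtain ⟨a₀⟩ := ‹Nonempty A›
  have := mean_fibres p univ (fun _ => mem_univ _)
    ((univ : Finset A).filter (fun a => p a = p a₀)).card (fun b _ => ?_) g
  · rwa [card_univ] at this
  · obtain ⟨r, rfl⟩ := ht (p a₀) b
    refine card_bij' (fun a _ => r⁻¹ • a) (fun a _ => r • a) ?_ ?_ ?_ ?_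
    · intro a ha
      rw [mem_filter] at ha ⊢
      exact ⟨mem_univ _, by rw [hp, ha.2, inv_smul_smul]⟩
    · intro a ha
      rw [mem_filter] at ha ⊢
      exact ⟨mem_univ _, by rw [hp, ha.2]⟩
    · intro a _
      exact smul_inv_smul _ _
    · intro a _
      exact inv_smul_smul _ _

/-- Averaging over a subgroup which fixes the first factor. -/
theorem average_subgroup {𝒢 A Z : Type} [Group 𝒢] [MulAction 𝒢 A] [MulAction 𝒢 Z] [Fintype A]
    [Fintype Z] [DecidableEq Z] (p : A → Z) (hp : ∀ (g : 𝒢) a, p (g • a) = g • p a)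
    (H : Subgroup 𝒢) (F : A → ℝ) (hF : ∀ h ∈ H, ∀ a, F (h • a) = F a) (g Ψ : Z → ℝ)
    (S : Z → Finset Z) (hS : ∀ z z', z' ∈ S z ↔ ∃ h ∈ H, h • z = z')
    (hΨ : ∀ z, Ψ z = (∑ b ∈ S z, g b) / (S z).card) :
    ∑ a, F a * g (p a) = ∑ a, F a * Ψ (p a) := by
  classical
  let Q := (MulAction.toPermHom H Z).range
  have : Fintype Q := Fintype.ofFinite _
  have hQ0 : (Fintype.card Q : ℝ) ≠ 0 := by exact_mod_cast Fintype.card_ne_zero
  have hΨ' : ∀ z, Ψ z = (∑ q : Q, g (q • z)) / Fintype.card Q := by
    intro z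
    rw [hΨ, mean_group z (S z) (fun z' => ?_) g]
    rw [hS]
    constructor
    · rintro ⟨h, hh, rfl⟩
      exact ⟨⟨MulAction.toPermHom H Z ⟨h, hh⟩, ⟨⟨h, hh⟩, rfl⟩⟩, rfl⟩
    · rintro ⟨⟨_, ⟨h, rfl⟩⟩, rfl⟩
      exact ⟨h, h.2, rfl⟩
  have key : ∀ q : Q, ∑ a, F a * g (q • p a) = ∑ a, F a * g (p a) := by
    rintro ⟨_, ⟨h, rfl⟩⟩
    have e : ∀ a, F a * g (p ((h : 𝒢) • a)) = F ((h : 𝒢) • a) * g (p ((h : 𝒢) • a)) := fun a => by
      rw [hF _ h.2]
    calc ∑ a, F a * g ((⟨MulAction.toPermHom H Z h, ⟨h, rfl⟩⟩ : Q) • p a)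
        = ∑ a, F ((h : 𝒢) • a) * g (p ((h : 𝒢) • a)) := by
          refine sum_congr rfl fun a _ => ?_
          rw [← e, hp]
          rfl
      _ = ∑ a, F a * g (p a) :=
          Equiv.sum_comp (MulAction.toPerm (h : 𝒢)) (fun a => F a * g (p a))
  simp only [hΨ', mul_div_assoc', mul_sum]
  rw [← sum_div, sum_comm, sum_congr rfl (fun q _ => key q), sum_const, card_univ, nsmul_eq_mul,
    mul_div_cancel_left₀ _ hQ0]

end Fibres

section Average

variable {𝒢 : Type} [Group 𝒢] {X : Type} [TopologicalSpace X] [CompactSpace X] [T2Space X]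
  [SecondCountableTopology X] [MeasurableSpace X] [BorelSpace X]

/-- The finite set of the points over `w`. -/
noncomputable def lifts (S : CMTower 𝒢 X) (K : S.Field) (f f' : ℕ) (w : S.P K f') :
    Finset (S.P K f) := (Set.toFinite {z : S.P K f | S.proj K f f' z = w}).toFinset

omit [TopologicalSpace X] [CompactSpace X] [T2Space X] [SecondCountableTopology X]
  [MeasurableSpace X] [BorelSpace X] in
theorem mem_lifts {S : CMTower 𝒢 X} {K : S.Field} {f f' : ℕ} {w : S.P K f'} {z : S.P K f} :
    z ∈ lifts S K f f' w ↔ S.proj K f f' z = w := Set.Finite.mem_toFinset _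

/-- The average over the points over `w`. -/
noncomputable def fibreMean (S : CMTower 𝒢 X) (K : S.Field) (f f' : ℕ) (φ : C(X, ℝ))
    (w : S.P K f') : ℝ :=
  (∑ z ∈ lifts S K f f' w, φ (S.pt K f z)) / (lifts S K f f' w).card

omit [CompactSpace X] [T2Space X] [SecondCountableTopology X] [MeasurableSpace X]
  [BorelSpace X] in
theorem fibreMean_eq (S : CMTower 𝒢 X) (K : S.Field) (f f' : ℕ) (φ : C(X, ℝ)) (w : S.P K f') :
    (∑ᶠ z ∈ {z : S.P K f | S.proj K f f' z = w}, φ (S.pt K f z)) /
      Nat.card {z : S.P K f // S.proj K f f' z = w} = fibreMean S K f f' φ w := by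
  classical
  unfold fibreMean
  congr 1
  · exact finsum_mem_eq_finite_toFinset_sum _ _
  · congr 1
    exact Set.ncard_eq_toFinset_card {z : S.P K f | S.proj K f f' z = w} (Set.toFinite _)

omit [T2Space X] [SecondCountableTopology X] [MeasurableSpace X] [BorelSpace X] in
theorem abs_fibreMean_le (S : CMTower 𝒢 X) (K : S.Field) (f f' : ℕ) (φ : C(X, ℝ))
    (w : S.P K f') : |fibreMean S K f f' φ w| ≤ ‖φ‖ := by
  unfold fibreMean
  rw [abs_div, abs_of_nonneg (Nat.cast_nonneg _ : (0 : ℝ) ≤ (lifts S K f f' w).card)]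
  refine div_le_of_le_mul₀ (Nat.cast_nonneg _) (norm_nonneg _) ?_
  calc |∑ z ∈ lifts S K f f' w, φ (S.pt K f z)| ≤ ∑ z ∈ lifts S K f f' w, |φ (S.pt K f z)| :=
        abs_sum_le_sum_abs _ _
    _ ≤ ∑ _z ∈ lifts S K f f' w, ‖φ‖ := sum_le_sum fun z _ => φ.norm_coe_le_norm _
    _ = ‖φ‖ * (lifts S K f f' w).card := by rw [sum_const, nsmul_eq_mul, mul_comm]

/-- A continuous function with compact support in `Y` and large integral. -/
theorem exists_bump (m : Measure X) [IsProbabilityMeasure m] (Y : Set X) (hY : IsOpen Y)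
    (hm : m Yᶜ = 0) (ε : ℝ) (hε : 0 < ε) :
    ∃ (η : C(X, ℝ)) (C : Set X), IsCompact C ∧ C ⊆ Y ∧ (∀ x, 0 ≤ η x) ∧ (∀ x, η x ≤ 1) ∧
      (∀ x, x ∉ C → η x = 0) ∧ 1 - ε ≤ ∫ t, η t ∂m := by
  have hmY : m Y = 1 := by
    have := prob_compl_eq_zero_iff (μ := m) hY.measurableSet
    exact this.1 hm
  have : TopologicalSpace.MetrizableSpace X := TopologicalSpace.metrizableSpace_of_t3_secondCountable X
  obtain ⟨C₀, hC₀Y, hC₀, hmC₀⟩ : ∃ C₀ ⊆ Y, IsCompact C₀ ∧ ENNReal.ofReal (1 - ε) < m C₀ := by
    have h := hY.measure_eq_iSup_isCompact m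
    rw [hmY] at h
    have h1 : ENNReal.ofReal (1 - ε) < 1 := by
      rw [ENNReal.ofReal_lt_one]
      linarith
    rw [h] at h1
    simp only [lt_iSup_iff] at h1
    obtain ⟨C₀, h2, h3, h4⟩ := h1
    exact ⟨C₀, h2, h3, h4⟩
  obtain ⟨C, hC, hC₀C, hCY⟩ := exists_compact_between hC₀ hY hC₀Y
  obtain ⟨η, hη1, hη0, hη⟩ := exists_continuous_zero_one_of_isClosed
    (isOpen_interior (s := C)).isClosed_compl hC₀.isClosed
    (by rw [Set.disjoint_compl_left_iff_subset]; exact hC₀C)
  refine ⟨η, C, hC, hCY, fun x => (hη x).1, fun x => (hη x).2, fun x hx => ?_, ?_⟩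
  · exact hη1 (fun h => hx (interior_subset h))
  · have h1 : (m C₀).toReal ≤ ∫ t, η t ∂m := by
      change m.real C₀ ≤ _
      rw [← integral_indicator_one hC₀.measurableSet]
      refine integral_mono_of_nonneg ?_ ?_ ?_
      · exact Eventually.of_forall fun x => Set.indicator_nonneg (fun _ _ => zero_le_one) _
      · exact (integrable_const ‖η‖).mono' η.continuous.measurable.aestronglyMeasurable
          (Eventually.of_forall fun z => η.norm_coe_le_norm z)
      · refine Eventually.of_forall fun x => ?_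
        by_cases hx : x ∈ C₀
        · rw [Set.indicator_of_mem hx]
          exact (hη0 hx).ge
        · rw [Set.indicator_of_notMem hx]
          exact (hη x).1
    refine le_trans ?_ h1
    exact (ENNReal.ofReal_le_iff_le_toReal (measure_ne_top m C₀)).1 hmC₀.le

/-- Hecke equidistribution in the mean over the points `w`. -/
theorem average_hecke (S : CMTower 𝒢 X) (m : Measure X) [IsProbabilityMeasure m] (Y : Set X)
    (hY : IsOpen Y) (hm : m Yᶜ = 0) (hpt : ∀ K f (z : S.P K f), S.pt K f z ∈ Y)
    (duke : Duke S m) (hecke : Hecke S m Y) (φ : C(X, ℝ)) (ε : ℝ) (hε : 0 < ε) :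
    ∃ M : ℕ, ∀ (K : S.Field) (f f' : ℕ) [Fintype (S.P K f')], 0 < f → f' ∣ f → M ≤ f / f' →
      (∑ w : S.P K f', |fibreMean S K f f' φ w - ∫ t, φ t ∂m|) / Fintype.card (S.P K f') ≤ ε := by
  classical
  set B := ‖φ‖ with hB
  have hB0 : 0 ≤ B := norm_nonneg _
  set ε' := ε / (1 + 4 * B) with hε'
  have hε'0 : 0 < ε' := by positivity
  obtain ⟨η, C, hC, hCY, hη0, hη1, hηC, hηint⟩ := exists_bump m Y hY hm ε' hε'0
  obtain ⟨M₁, hM₁⟩ := duke η ε' hε'0
  -- the points with small discriminant
  let C₁ : Set X := C ∪ ⋃ K ∈ {K | S.disc K ≤ M₁}, ⋃ f' ∈ (range (M₁ + 1) : Set ℕ),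
    Set.range (S.pt K f')
  have hC₁ : IsCompact C₁ := by
    refine hC.union ?_
    refine (S.finite_disc M₁).isCompact_biUnion fun K _ => ?_
    refine (Set.toFinite (range (M₁ + 1) : Set ℕ)).isCompact_biUnion fun f' _ => ?_
    exact (Set.finite_range _).isCompact
  have hC₁Y : C₁ ⊆ Y := by
    refine Set.union_subset hCY ?_
    refine Set.iUnion₂_subset fun K _ => Set.iUnion₂_subset fun f' _ => ?_
    rintro _ ⟨z, rfl⟩
    exact hpt K f' z
  obtain ⟨M₂, hM₂⟩ := hecke φ C₁ hC₁ hC₁Y ε' hε'0
  refine ⟨M₂, fun K f f' _ hf hf' hM => ?_⟩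
  have hf'0 : 0 < f' := Nat.pos_of_dvd_of_pos hf' hf
  have hP0 : (0 : ℝ) < Fintype.card (S.P K f') := by exact_mod_cast Fintype.card_pos
  have hI : |∫ t, φ t ∂m| ≤ B := by
    have := norm_integral_le_of_norm_le_const (μ := m) (C := ‖φ‖)
      (Eventually.of_forall fun z => φ.norm_coe_le_norm z)
    simpa using this
  have h1 : ∀ w : S.P K f', S.pt K f' w ∈ C₁ → |fibreMean S K f f' φ w - ∫ t, φ t ∂m| ≤ ε' := by
    intro w hw
    rw [← fibreMean_eq]
    exact hM₂ K f f' hf hf' hM w hw
  rw [div_le_iff₀ hP0]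
  by_cases hsmall : S.disc K * f' ^ 2 < M₁
  · have hw : ∀ w : S.P K f', S.pt K f' w ∈ C₁ := by
      intro w
      refine Or.inr ?_
      simp only [Set.mem_iUnion]
      refine ⟨K, ?_, f', ?_, ⟨w, rfl⟩⟩
      · change S.disc K ≤ M₁
        exact (Nat.le_mul_of_pos_right _ (by positivity)).trans hsmall.le
      · rw [coe_range, Set.mem_Iio]
        have h6 : f' ≤ f' ^ 2 := Nat.le_self_pow two_ne_zero f'
        have h7 : f' ^ 2 ≤ S.disc K * f' ^ 2 := Nat.le_mul_of_pos_left _ (S.disc_pos K)
        omega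
    calc ∑ w : S.P K f', |fibreMean S K f f' φ w - ∫ t, φ t ∂m| ≤ ∑ _w : S.P K f', ε' :=
          sum_le_sum fun w _ => h1 w (hw w)
      _ = ε' * Fintype.card (S.P K f') := by rw [sum_const, card_univ, nsmul_eq_mul, mul_comm]
      _ ≤ ε * Fintype.card (S.P K f') := by
          refine mul_le_mul_of_nonneg_right ?_ hP0.le
          rw [hε']
          exact div_le_self hε.le (by linarith)
  · have h2 := hM₁ K f' hf'0 (not_lt.1 hsmall)
    rw [finsum_eq_sum_of_fintype, Nat.card_eq_fintype_card] at h2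
    have h3 : (1 - 2 * ε') * Fintype.card (S.P K f') ≤ ∑ w : S.P K f', η (S.pt K f' w) := by
      rw [← le_div_iff₀ hP0]
      linarith [(abs_le.1 h2).1]
    calc ∑ w : S.P K f', |fibreMean S K f f' φ w - ∫ t, φ t ∂m|
        ≤ ∑ w : S.P K f', (ε' + 2 * B * (1 - η (S.pt K f' w))) := by
          refine sum_le_sum fun w _ => ?_
          by_cases hw : S.pt K f' w ∈ C
          · have := h1 w (Or.inl hw)
            have h4 : 0 ≤ 2 * B * (1 - η (S.pt K f' w)) :=
              mul_nonneg (by linarith) (by linarith [hη1 (S.pt K f' w)])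
            linarith
          · rw [hηC _ hw, sub_zero, mul_one]
            have h5 := abs_fibreMean_le S K f f' φ w
            calc |fibreMean S K f f' φ w - ∫ t, φ t ∂m|
                ≤ |fibreMean S K f f' φ w| + |∫ t, φ t ∂m| := abs_sub _ _
              _ ≤ _ := by linarith
      _ = (ε' + 2 * B) * Fintype.card (S.P K f') - 2 * B * ∑ w : S.P K f', η (S.pt K f' w) := by
          rw [sum_add_distrib, ← mul_sum, sum_sub_distrib, sum_const, sum_const, card_univ,
            nsmul_eq_mul, nsmul_eq_mul]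
          ring
      _ ≤ (ε' + 2 * B) * Fintype.card (S.P K f') -
            2 * B * ((1 - 2 * ε') * Fintype.card (S.P K f')) := by
          have := mul_le_mul_of_nonneg_left h3 (by linarith : 0 ≤ 2 * B)
          linarith
      _ = (ε' * (1 + 4 * B)) * Fintype.card (S.P K f') := by ring
      _ = ε * Fintype.card (S.P K f') := by
          rw [hε', div_mul_cancel₀ _ (by positivity)]

end Average

section Convergence

variable {Z : Type} [TopologicalSpace Z] [CompactSpace Z]

theorem closed_conv (L : ℕ → C(Z, ℝ) →ₗ[ℝ] ℝ) (I : C(Z, ℝ) →ₗ[ℝ] ℝ)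
    (hL : ∀ k f, |L k f| ≤ ‖f‖) (hI : ∀ f, |I f| ≤ ‖f‖) :
    IsClosed {f : C(Z, ℝ) | Tendsto (fun k => L k f) atTop (𝓝 (I f))} := by
  rw [← closure_subset_iff_isClosed]
  intro f hf
  change Tendsto (fun k => L k f) atTop (𝓝 (I f))
  rw [Metric.tendsto_atTop]
  intro ε hε
  obtain ⟨g, hg, hfg⟩ := Metric.mem_closure_iff.1 hf (ε / 3) (by positivity)
  obtain ⟨K, hK⟩ := Metric.tendsto_atTop.1 hg (ε / 3) (by positivity)
  refine ⟨K, fun k hk => ?_⟩
  have h1 := hK k hk
  rw [Real.dist_eq] at h1 ⊢
  rw [dist_eq_norm] at hfg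
  have h2 : |L k (f - g)| ≤ ‖f - g‖ := hL k _
  have h3 : |I (f - g)| ≤ ‖f - g‖ := hI _
  rw [map_sub] at h2 h3
  have h4 : L k f - I f = (L k f - L k g) + (L k g - I g) - (I f - I g) := by ring
  rw [h4]
  calc |(L k f - L k g) + (L k g - I g) - (I f - I g)|
      ≤ |L k f - L k g| + |L k g - I g| + |I f - I g| := by
        refine (abs_sub _ _).trans (add_le_add (abs_add_le _ _) le_rfl)
    _ < ε := by linarith

/-- Products of functions of the coordinates. -/
def prodFn {n : ℕ} {X : Fin n → Type} [∀ j, TopologicalSpace (X j)]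
    (g : ∀ j, C(X j, ℝ)) : C((∀ j, X j), ℝ) :=
  ∏ j, (g j).comp ⟨fun z => z j, continuous_apply j⟩

theorem prodFn_apply {n : ℕ} {X : Fin n → Type} [∀ j, TopologicalSpace (X j)]
    (g : ∀ j, C(X j, ℝ)) (z : ∀ j, X j) : prodFn g z = ∏ j, g j (z j) := by
  simp [prodFn, ContinuousMap.prod_apply]

theorem prodFn_continuous {n : ℕ} {X : Fin n → Type} [∀ j, TopologicalSpace (X j)]
    [∀ j, CompactSpace (X j)] :
    Continuous (prodFn : (∀ j, C(X j, ℝ)) → C((∀ j, X j), ℝ)) := by
  unfold prodFn
  refine continuous_finsetProd _ fun j _ => ?_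
  exact (ContinuousMap.continuous_precomp _).comp (continuous_apply j)

theorem dense_span {n : ℕ} {X : Fin n → Type} [∀ j, TopologicalSpace (X j)]
    [∀ j, CompactSpace (X j)] [∀ j, T2Space (X j)] :
    Dense ((Submodule.span ℝ (Set.range (prodFn : (∀ j, C(X j, ℝ)) → C((∀ j, X j), ℝ))) :
      Submodule ℝ C((∀ j, X j), ℝ)) : Set C((∀ j, X j), ℝ)) := by
  classical
  let Mo : Submonoid C((∀ j, X j), ℝ) :=
    { carrier := Set.range prodFn
      one_mem' := ⟨1, by ext z; simp [prodFn_apply]⟩
      mul_mem' := by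
        rintro _ _ ⟨g, rfl⟩ ⟨h, rfl⟩
        refine ⟨g * h, ?_⟩
        ext z
        simp [prodFn_apply, prod_mul_distrib] }
  have h1 : (Algebra.adjoin ℝ (Mo : Set C((∀ j, X j), ℝ))).toSubmodule =
      Submodule.span ℝ (Mo : Set C((∀ j, X j), ℝ)) := by
    rw [Algebra.adjoin_eq_span, Submonoid.closure_eq]
  have hsep : (Algebra.adjoin ℝ (Mo : Set C((∀ j, X j), ℝ))).SeparatesPoints := by
    intro z z' hz
    obtain ⟨j, hj⟩ : ∃ j, z j ≠ z' j := Function.ne_iff.1 hz
    obtain ⟨g, hg0, hg1, -⟩ := exists_continuous_zero_one_of_isClosed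
      (isClosed_singleton (x := z j)) (isClosed_singleton (x := z' j))
      (by rw [Set.disjoint_singleton]; exact hj)
    refine ⟨_, ⟨prodFn (Function.update 1 j g), Algebra.subset_adjoin ⟨_, rfl⟩, rfl⟩, ?_⟩
    have e : ∀ w : ∀ j, X j, prodFn (Function.update (1 : ∀ j, C(X j, ℝ)) j g) w = g (w j) := by
      intro w
      rw [prodFn_apply, prod_eq_single j]
      · rw [Function.update_self]
      · intro i _ hi
        rw [Function.update_of_ne hi]
        rfl
      · intro h
        exact absurd (mem_univ _) h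
    change prodFn (Function.update (1 : ∀ j, C(X j, ℝ)) j g) z ≠
      prodFn (Function.update (1 : ∀ j, C(X j, ℝ)) j g) z'
    rw [e, e, hg0 rfl, hg1 rfl]
    simp
  have h2 := ContinuousMap.subalgebra_topologicalClosure_eq_top_of_separatesPoints _ hsep
  have h3 : (Submodule.span ℝ (Set.range (prodFn : (∀ j, C(X j, ℝ)) → C((∀ j, X j), ℝ))) :
      Set C((∀ j, X j), ℝ)) = (Algebra.adjoin ℝ (Mo : Set C((∀ j, X j), ℝ)) : Set _) := by
    rw [← Subalgebra.coe_toSubmodule, h1]
    rfl
  rw [h3, dense_iff_closure_eq, ← Subalgebra.topologicalClosure_coe, h2]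
  rfl

end Convergence


section Orbits

variable {𝒢 : Type} [Group 𝒢] {X : Type} [TopologicalSpace X] [CompactSpace X] [T2Space X]
  [SecondCountableTopology X] [MeasurableSpace X] [BorelSpace X]

omit [TopologicalSpace X] [CompactSpace X] [T2Space X] [SecondCountableTopology X]
  [MeasurableSpace X] [BorelSpace X] in
/-- The `N`-orbits are the fibres of the projection. -/
theorem mem_orbit_iff (S : CMTower 𝒢 X) (K : S.Field) (L f : ℕ) (hL : 0 < L) (hf : 0 < f)
    (z z' : S.P K f) :
    z' ∈ lifts S K f (Nat.gcd L f) (S.proj K f (Nat.gcd L f) z) ↔ ∃ h ∈ S.N K L, h • z = z' := by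
  rw [mem_lifts]
  constructor
  · intro h
    exact S.fibre K L f hL hf z z' h.symm
  · rintro ⟨h, hh, rfl⟩
    rw [S.proj_smul K f _ hf (Nat.gcd_dvd_right L f)]
    exact S.trivial K L _ hL (Nat.gcd_dvd_left L f) h hh _

/-- The product of the first `j` functions. -/
noncomputable def partialProd {n : ℕ} (S : CMTower 𝒢 X) (K : S.Field) (f : Fin n → ℕ)
    (φ : Fin n → C(X, ℝ)) (j : ℕ) (y : ∀ i, S.P K (f i)) : ℝ :=
  ∏ i ∈ univ.filter (fun i : Fin n => i.val < j), φ i (S.pt K (f i) (y i))

omit [CompactSpace X] [T2Space X] [SecondCountableTopology X] [MeasurableSpace X]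
  [BorelSpace X] in
theorem partialProd_succ {n : ℕ} (S : CMTower 𝒢 X) (K : S.Field) (f : Fin n → ℕ)
    (φ : Fin n → C(X, ℝ)) (j : Fin n) (y : ∀ i, S.P K (f i)) :
    partialProd S K f φ (j.val + 1) y =
      partialProd S K f φ j.val y * φ j (S.pt K (f j) (y j)) := by
  classical
  unfold partialProd
  have h : (univ.filter (fun i : Fin n => i.val < j.val + 1)) =
      insert j (univ.filter (fun i : Fin n => i.val < j.val)) := by
    ext i
    simp only [mem_filter, mem_univ, true_and, mem_insert, Fin.ext_iff]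
    omega
  rw [h, prod_insert (by simp), mul_comm]

omit [T2Space X] [SecondCountableTopology X] [BorelSpace X] in
/-- One step: the last function can be replaced by its averages over the points over `w`. -/
theorem step {n : ℕ} (S : CMTower 𝒢 X) (K : S.Field) (f : Fin n → ℕ) (hf : ∀ i, 0 < f i)
    (φ : Fin n → C(X, ℝ)) (B : ℝ) (hB : 1 ≤ B) (hφ : ∀ i, ‖φ i‖ ≤ B) (m : Measure X)
    (x : ∀ i, S.P K (f i)) (j : Fin n) (L g : ℕ) (hL0 : 0 < L) (hL : ∀ i, i < j → f i ∣ L)
    (hg : g = Nat.gcd L (f j)) [Fintype (MulAction.orbit 𝒢 x)] [Fintype (S.P K g)] :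
    |(∑ a : MulAction.orbit 𝒢 x, partialProd S K f φ (j.val + 1) a) /
        Fintype.card (MulAction.orbit 𝒢 x) -
      (∑ a : MulAction.orbit 𝒢 x, partialProd S K f φ j.val a) /
        Fintype.card (MulAction.orbit 𝒢 x) * ∫ t, φ j t ∂m| ≤
    B ^ n * ((∑ w : S.P K g, |fibreMean S K (f j) g (φ j) w - ∫ t, φ j t ∂m|) /
      Fintype.card (S.P K g)) := by
  classical
  have : Fintype (S.P K (f j)) := Fintype.ofFinite _
  have : Nonempty (MulAction.orbit 𝒢 x) := ⟨⟨x, MulAction.mem_orbit_self x⟩⟩
  have hA0 : (0 : ℝ) < Fintype.card (MulAction.orbit 𝒢 x) := by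
    exact_mod_cast Fintype.card_pos
  have hgf : g ∣ f j := hg ▸ Nat.gcd_dvd_right _ _
  let p : MulAction.orbit 𝒢 x → S.P K (f j) := fun a => (a : ∀ i, S.P K (f i)) j
  have hp : ∀ (h : 𝒢) (a : MulAction.orbit 𝒢 x), p (h • a) = h • p a := fun h a => rfl
  let Ψ : S.P K (f j) → ℝ := fun z => fibreMean S K (f j) g (φ j) (S.proj K (f j) g z)
  have h1 : ∑ a : MulAction.orbit 𝒢 x, partialProd S K f φ j.val a * φ j (S.pt K (f j) (p a)) =
      ∑ a : MulAction.orbit 𝒢 x, partialProd S K f φ j.val a * Ψ (p a) := by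
    refine average_subgroup p hp (S.N K L) (fun a : MulAction.orbit 𝒢 x => partialProd S K f φ j.val a) ?_
      (fun z => φ j (S.pt K (f j) z)) Ψ (fun z => lifts S K (f j) g (S.proj K (f j) g z)) ?_ ?_
    · intro h hh a
      unfold partialProd
      refine prod_congr rfl fun i hi => ?_
      have hij : i < j := (mem_filter.1 hi).2
      have : (h • (a : ∀ i, S.P K (f i))) i = (a : ∀ i, S.P K (f i)) i :=
        S.trivial K L (f i) hL0 (hL i hij) h hh _
      change φ i (S.pt K (f i) ((h • (a : ∀ i, S.P K (f i))) i)) = _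
      rw [this]
    · intro z z'
      subst hg
      exact mem_orbit_iff S K L (f j) hL0 (hf j) z z'
    · intro z
      rfl
  have h2 : ∑ a : MulAction.orbit 𝒢 x, partialProd S K f φ (j.val + 1) a =
      ∑ a : MulAction.orbit 𝒢 x, partialProd S K f φ j.val a * Ψ (p a) := by
    rw [← h1]
    exact sum_congr rfl fun a _ => partialProd_succ S K f φ j a
  have hbound : ∀ a : MulAction.orbit 𝒢 x, |partialProd S K f φ j.val a| ≤ B ^ n := by
    intro a
    unfold partialProd
    rw [abs_prod]
    calc ∏ i ∈ univ.filter (fun i : Fin n => i.val < j.val),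
          |φ i (S.pt K (f i) ((a : ∀ i, S.P K (f i)) i))|
        ≤ ∏ _i ∈ univ.filter (fun i : Fin n => i.val < j.val), B :=
          prod_le_prod (fun _ _ => abs_nonneg _)
            fun i _ => ((φ i).norm_coe_le_norm _).trans (hφ i)
      _ = B ^ (univ.filter (fun i : Fin n => i.val < j.val)).card := by rw [prod_const]
      _ ≤ B ^ n := by
          refine pow_le_pow_right₀ hB ?_
          calc (univ.filter (fun i : Fin n => i.val < j.val)).card ≤ (univ : Finset (Fin n)).card :=
                card_le_card (filter_subset _ _)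
            _ = n := by rw [card_univ, Fintype.card_fin]
  have h3 : (∑ a : MulAction.orbit 𝒢 x, |Ψ (p a) - ∫ t, φ j t ∂m|) / Fintype.card (MulAction.orbit 𝒢 x) =
      (∑ w : S.P K g, |fibreMean S K (f j) g (φ j) w - ∫ t, φ j t ∂m|) /
        Fintype.card (S.P K g) := by
    refine mean_equivariant (𝒢 := 𝒢) (fun a : MulAction.orbit 𝒢 x => S.proj K (f j) g (p a)) (fun h a => ?_)
      (S.transitive K g (Nat.pos_of_dvd_of_pos hgf (hf j)))
      (fun w => |fibreMean S K (f j) g (φ j) w - ∫ t, φ j t ∂m|)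
    rw [hp, S.proj_smul K (f j) g (hf j) hgf]
  rw [h2, ← h3, div_mul_eq_mul_div, ← sub_div, abs_div, abs_of_pos hA0, mul_div_assoc']
  refine div_le_div_of_nonneg_right ?_ hA0.le
  have e : ∑ a : MulAction.orbit 𝒢 x, partialProd S K f φ j.val a * Ψ (p a) -
      (∑ a : MulAction.orbit 𝒢 x, partialProd S K f φ j.val a) * ∫ t, φ j t ∂m =
      ∑ a : MulAction.orbit 𝒢 x, partialProd S K f φ j.val a * (Ψ (p a) - ∫ t, φ j t ∂m) := by
    rw [sum_mul, ← sum_sub_distrib]
    exact sum_congr rfl fun a _ => by ring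
  rw [e, mul_sum]
  refine (abs_sum_le_sum_abs _ _).trans (sum_le_sum fun a _ => ?_)
  rw [abs_mul]
  exact mul_le_mul_of_nonneg_right (hbound a) (abs_nonneg _)

end Orbits

section Final

variable {𝒢 : Type} [Group 𝒢] {X : Type} [TopologicalSpace X] [CompactSpace X] [T2Space X]
  [SecondCountableTopology X] [MeasurableSpace X] [BorelSpace X]

omit [T2Space X] in
theorem integrable_pi {n : ℕ} (m : Measure X) [IsProbabilityMeasure m]
    (f : C((Fin n → X), ℝ)) : Integrable (fun z => f z) (Measure.pi fun _ => m) :=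
  (integrable_const ‖f‖).mono' f.continuous.measurable.aestronglyMeasurable
    (Eventually.of_forall fun z => f.norm_coe_le_norm z)

theorem orbitAverage_eq {P : Type} [MulAction 𝒢 P] [Finite P] (x : P)
    [Fintype (MulAction.orbit 𝒢 x)] (Ψ : P → ℝ) : orbitAverage 𝒢 x Ψ =
      (∑ a : MulAction.orbit 𝒢 x, Ψ a) / Fintype.card (MulAction.orbit 𝒢 x) := by
  unfold orbitAverage
  rw [Nat.card_eq_fintype_card, ← finsum_eq_sum_of_fintype]
  congr 1
  exact (finsum_set_coe_eq_finsum_mem _).symm

/-- The statement for the products of the first `j` functions. -/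
theorem products (S : CMTower 𝒢 X) (m : Measure X) [IsProbabilityMeasure m] (Y : Set X)
    (hY : IsOpen Y) (hm : m Yᶜ = 0) (hpt : ∀ K f (z : S.P K f), S.pt K f z ∈ Y)
    (duke : Duke S m) (hecke : Hecke S m Y) {n : ℕ} (K : ℕ → S.Field) (f : ℕ → Fin n → ℕ)
    (hf : ∀ k j, 0 < f k j)
    (h0 : ∀ j : Fin n, j.val = 0 → Tendsto (fun k => S.disc (K k) * f k j ^ 2) atTop atTop)
    (h1 : ∀ j : Fin n, 0 < j.val → Tendsto (fun k => f k j /
      Nat.gcd ((univ.filter (fun i => i < j)).lcm (f k)) (f k j)) atTop atTop)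
    (x : ∀ k j, S.P (K k) (f k j)) [∀ k, Fintype (MulAction.orbit 𝒢 (x k))]
    (φ : Fin n → C(X, ℝ)) (j : ℕ) (hj : j ≤ n) :
    Tendsto (fun k => (∑ a : MulAction.orbit 𝒢 (x k), partialProd S (K k) (f k) φ j a) /
      Fintype.card (MulAction.orbit 𝒢 (x k))) atTop
      (𝓝 (∏ i ∈ univ.filter (fun i : Fin n => i.val < j), ∫ t, φ i t ∂m)) := by
  classical
  have hne : ∀ k, Nonempty (MulAction.orbit 𝒢 (x k)) := fun k =>
    ⟨⟨x k, MulAction.mem_orbit_self (x k)⟩⟩
  have hA0 : ∀ k, (0 : ℝ) < Fintype.card (MulAction.orbit 𝒢 (x k)) := fun k => by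
    exact_mod_cast Fintype.card_pos
  set B : ℝ := 1 + ∑ i, ‖φ i‖ with hB
  have hB1 : 1 ≤ B := by
    have : 0 ≤ ∑ i, ‖φ i‖ := sum_nonneg fun i _ => norm_nonneg _
    linarith
  have hBφ : ∀ i, ‖φ i‖ ≤ B := fun i => by
    have : ‖φ i‖ ≤ ∑ i, ‖φ i‖ := single_le_sum (f := fun i => ‖φ i‖)
      (fun i _ => norm_nonneg _) (mem_univ i)
    linarith
  induction j with
  | zero =>
    have e : ∀ k, (∑ a : MulAction.orbit 𝒢 (x k), partialProd S (K k) (f k) φ 0 a) /
        Fintype.card (MulAction.orbit 𝒢 (x k)) = 1 := by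
      intro k
      have : ∀ a : MulAction.orbit 𝒢 (x k), partialProd S (K k) (f k) φ 0 a = 1 := fun a => by
        simp [partialProd]
      rw [sum_congr rfl (fun a _ => this a), sum_const, card_univ, nsmul_eq_mul, mul_one,
        div_self (hA0 k).ne']
    simp only [e]
    simp
  | succ j ih =>
    have ih' := ih (by omega)
    let jj : Fin n := ⟨j, by omega⟩
    have hprod : ∏ i ∈ univ.filter (fun i : Fin n => i.val < j + 1), ∫ t, φ i t ∂m =
        (∏ i ∈ univ.filter (fun i : Fin n => i.val < j), ∫ t, φ i t ∂m) * ∫ t, φ jj t ∂m := by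
      have h : (univ.filter (fun i : Fin n => i.val < j + 1)) =
          insert jj (univ.filter (fun i : Fin n => i.val < j)) := by
        ext i
        simp only [mem_filter, mem_univ, true_and, mem_insert, Fin.ext_iff, jj]
        omega
      rw [h, prod_insert (by simp [jj]), mul_comm]
    rw [hprod]
    have ih2 := ih'.mul_const (∫ t, φ jj t ∂m)
    suffices hdiff : Tendsto (fun k =>
        (∑ a : MulAction.orbit 𝒢 (x k), partialProd S (K k) (f k) φ (j + 1) a) /
          Fintype.card (MulAction.orbit 𝒢 (x k)) -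
        (∑ a : MulAction.orbit 𝒢 (x k), partialProd S (K k) (f k) φ j a) /
          Fintype.card (MulAction.orbit 𝒢 (x k)) * ∫ t, φ jj t ∂m) atTop (𝓝 0) by
      have := hdiff.add ih2
      rw [zero_add] at this
      refine this.congr fun k => ?_
      ring
    rw [Metric.tendsto_atTop]
    intro ε hε
    rcases Nat.eq_zero_or_pos j with hj0 | hj0
    · -- the first coordinate
      subst hj0
      obtain ⟨M, hM⟩ := duke (φ jj) (ε / 2) (by positivity)
      obtain ⟨k₀, hk₀⟩ := eventually_atTop.1 ((h0 jj rfl).eventually_ge_atTop M)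
      refine ⟨k₀, fun k hk => ?_⟩
      have : Fintype (S.P (K k) (f k jj)) := Fintype.ofFinite _
      have h2 := hM (K k) (f k jj) (hf k jj) (hk₀ k hk)
      rw [finsum_eq_sum_of_fintype, Nat.card_eq_fintype_card] at h2
      have h3 := mean_equivariant (𝒢 := 𝒢)
        (fun a : MulAction.orbit 𝒢 (x k) => (a : ∀ i, S.P (K k) (f k i)) jj) (fun h a => rfl)
        (S.transitive (K k) (f k jj) (hf k jj)) (fun z => φ jj (S.pt (K k) (f k jj) z))
      have e0 : ∀ a : MulAction.orbit 𝒢 (x k), partialProd S (K k) (f k) φ 0 a = 1 := fun a => by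
        simp [partialProd]
      have e1 : ∀ a : MulAction.orbit 𝒢 (x k), partialProd S (K k) (f k) φ (0 + 1) a =
          φ jj (S.pt (K k) (f k jj) ((a : ∀ i, S.P (K k) (f k i)) jj)) := fun a => by
        have := partialProd_succ S (K k) (f k) φ jj a
        rw [show jj.val = 0 from rfl, e0 a, one_mul] at this
        exact this
      rw [Real.dist_eq, sub_zero, sum_congr rfl (fun a _ => e1 a), sum_congr rfl (fun a _ => e0 a),
        sum_const, card_univ, nsmul_eq_mul, mul_one, div_self (hA0 k).ne', one_mul, h3]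
      exact lt_of_le_of_lt h2 (by linarith)
    · -- the other coordinates
      obtain ⟨M, hM⟩ := average_hecke S m Y hY hm hpt duke hecke (φ jj) (ε / (2 * B ^ n))
        (by positivity)
      obtain ⟨k₀, hk₀⟩ := eventually_atTop.1 ((h1 jj hj0).eventually_ge_atTop M)
      refine ⟨k₀, fun k hk => ?_⟩
      set L := (univ.filter (fun i => i < jj)).lcm (f k) with hL
      have hL0 : 0 < L := by
        refine Nat.pos_of_ne_zero ?_
        rw [hL, Finset.lcm_ne_zero_iff]
        exact fun i _ => (hf k i).ne'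
      have : Fintype (S.P (K k) (Nat.gcd L (f k jj))) := Fintype.ofFinite _
      have h2 := hM (K k) (f k jj) (Nat.gcd L (f k jj)) (hf k jj) (Nat.gcd_dvd_right _ _)
        (hk₀ k hk)
      have h3 := step S (K k) (f k) (hf k) φ B hB1 hBφ m (x k) jj L (Nat.gcd L (f k jj)) hL0
        (fun i hi => Finset.dvd_lcm (mem_filter.2 ⟨mem_univ _, hi⟩)) rfl
      rw [Real.dist_eq, sub_zero]
      refine lt_of_le_of_lt h3 ?_
      have hBn : 0 < B ^ n := by positivity
      calc B ^ n * _ ≤ B ^ n * (ε / (2 * B ^ n)) := mul_le_mul_of_nonneg_left h2 hBn.le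
        _ = ε / 2 := by field_simp
        _ < ε := by linarith

/-- **Special points with one CM field and independent conductors are equidistributed.** Let `X` be a
compact Hausdorff second countable space (the compactified `j`-line) with a structure `CMTower`,
`m` a probability measure on `X` and `Y` an open set of measure one which contains the CM points (the
open curve), such that `Duke` and `Hecke` hold. Let `x_k = (x_{k,j})_j` be `n`-tuples of CM points such
that `x_{k,j}` has CM by the order of conductor `f_{k,j} > 0` of the field `K_k`. Suppose that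
`|d_{K_k}| f_{k,j}² → ∞` for the first coordinate `j`, and
`f_{k,j} / gcd(lcm_{i < j} f_{k,i}, f_{k,j}) → ∞` for the other ones. Then the orbits of the `x_k` under
the Galois group `𝒢` are equidistributed in `X^n` for the product of the measures `m`. -/
theorem result (S : CMTower 𝒢 X) (m : Measure X) [IsProbabilityMeasure m] (Y : Set X)
    (hY : IsOpen Y) (hm : m Yᶜ = 0) (hpt : ∀ K f (z : S.P K f), S.pt K f z ∈ Y)
    (duke : Duke S m) (hecke : Hecke S m Y) {n : ℕ} (K : ℕ → S.Field) (f : ℕ → Fin n → ℕ)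
    (hf : ∀ k j, 0 < f k j)
    (h0 : ∀ j : Fin n, j.val = 0 → Tendsto (fun k => S.disc (K k) * f k j ^ 2) atTop atTop)
    (h1 : ∀ j : Fin n, 0 < j.val → Tendsto (fun k => f k j /
      Nat.gcd ((univ.filter (fun i => i < j)).lcm (f k)) (f k j)) atTop atTop)
    (x : ∀ k j, S.P (K k) (f k j)) (F : C((Fin n → X), ℝ)) :
    Tendsto (fun k => orbitAverage 𝒢 (x k)
      (fun y => F (fun j => S.pt (K k) (f k j) (y j)))) atTop
      (𝓝 (∫ z, F z ∂(Measure.pi fun _ => m))) := by
  classical
  have fO : ∀ k, Fintype (MulAction.orbit 𝒢 (x k)) := fun k => Fintype.ofFinite _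
  have hne : ∀ k, Nonempty (MulAction.orbit 𝒢 (x k)) := fun k =>
    ⟨⟨x k, MulAction.mem_orbit_self (x k)⟩⟩
  have hA0 : ∀ k, (0 : ℝ) < Fintype.card (MulAction.orbit 𝒢 (x k)) := fun k => by
    exact_mod_cast Fintype.card_pos
  let L : ℕ → C((Fin n → X), ℝ) →ₗ[ℝ] ℝ := fun k =>
    { toFun := fun f' => orbitAverage 𝒢 (x k) (fun y => f' (fun j => S.pt (K k) (f k j) (y j)))
      map_add' := by
        intro f' g'
        simp only [orbitAverage_eq, ContinuousMap.add_apply, sum_add_distrib, add_div]
      map_smul' := by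
        intro c f'
        simp only [orbitAverage_eq, ContinuousMap.smul_apply, smul_eq_mul, ← mul_sum,
          mul_div_assoc, RingHom.id_apply] }
  let I : C((Fin n → X), ℝ) →ₗ[ℝ] ℝ :=
    { toFun := fun f' => ∫ z, f' z ∂(Measure.pi fun _ => m)
      map_add' := by
        intro f' g'
        exact integral_add (integrable_pi m f') (integrable_pi m g')
      map_smul' := by
        intro c f'
        exact integral_const_mul c _ }
  have hL : ∀ k f', |L k f'| ≤ ‖f'‖ := by
    intro k f'
    change |orbitAverage 𝒢 (x k) (fun y => f' (fun j => S.pt (K k) (f k j) (y j)))| ≤ ‖f'‖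
    rw [orbitAverage_eq, abs_div, abs_of_pos (hA0 k), div_le_iff₀ (hA0 k)]
    calc _ ≤ ∑ a : MulAction.orbit 𝒢 (x k),
          |f' (fun j => S.pt (K k) (f k j) ((a : ∀ j, S.P (K k) (f k j)) j))| :=
          abs_sum_le_sum_abs _ _
      _ ≤ ∑ _a : MulAction.orbit 𝒢 (x k), ‖f'‖ := sum_le_sum fun y _ => f'.norm_coe_le_norm _
      _ = ‖f'‖ * Fintype.card (MulAction.orbit 𝒢 (x k)) := by
          rw [sum_const, card_univ, nsmul_eq_mul, mul_comm]
  have hI : ∀ f', |I f'| ≤ ‖f'‖ := by
    intro f'
    change |∫ z, f' z ∂(Measure.pi fun _ => m)| ≤ ‖f'‖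
    have := norm_integral_le_of_norm_le_const (μ := Measure.pi fun _ : Fin n => m) (C := ‖f'‖)
      (Eventually.of_forall fun z => f'.norm_coe_le_norm z)
    simpa using this
  have hcl := closed_conv L I hL hI
  have hprod : ∀ φ : Fin n → C(X, ℝ), Tendsto (fun k => L k (prodFn φ)) atTop
      (𝓝 (I (prodFn φ))) := by
    intro φ
    have e : I (prodFn φ) = ∏ j, ∫ t, φ j t ∂m := by
      change ∫ z, prodFn φ z ∂(Measure.pi fun _ => m) = _
      simp only [prodFn_apply]
      exact integral_fintype_prod_eq_prod (fun j t => φ j t)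
    have h2 := products S m Y hY hm hpt duke hecke K f hf h0 h1 x φ n le_rfl
    have hfil : (univ.filter (fun i : Fin n => i.val < n)) = univ :=
      filter_true_of_mem fun i _ => i.isLt
    rw [hfil] at h2
    rw [e]
    refine h2.congr fun k => ?_
    change _ = orbitAverage 𝒢 (x k) (fun y => prodFn φ (fun j => S.pt (K k) (f k j) (y j)))
    rw [orbitAverage_eq]
    congr 1
    refine sum_congr rfl fun a _ => ?_
    rw [prodFn_apply]
    unfold partialProd
    rw [hfil]
  have hspan : (Submodule.span ℝ (Set.range (prodFn : (∀ _ : Fin n, C(X, ℝ)) →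
      C((Fin n → X), ℝ))) : Set C((Fin n → X), ℝ)) ⊆
      {f' : C((Fin n → X), ℝ) | Tendsto (fun k => L k f') atTop (𝓝 (I f'))} := by
    intro f' hf'
    refine Submodule.span_induction
      (p := fun f' _ => Tendsto (fun k => L k f') atTop (𝓝 (I f'))) ?_ ?_ ?_ ?_ hf'
    · rintro _ ⟨g, rfl⟩
      exact hprod g
    · simp
    · intro f' g' _ _ h2 h3
      simp only [map_add]
      exact h2.add h3
    · intro c f' _ h2
      simp only [map_smul, smul_eq_mul]
      exact h2.const_mul c
  exact (hcl.closure_subset_iff.2 hspan) (dense_span F)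

end Final

end Pool.Agent.Results.MP_ad7a55_nt.IndependentConductors
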